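import Mathlib
import Pool.Agent.H.MP_c8cc4c_co.G.Grid3
import Pool.Agent.H.MP_c8cc4c_co.B.Conn

/-! # MP_c8cc4c_co, part R, file 1: the clamp function, walks in the grid -/

open scoped Classical
open Finset

noncomputable section

namespace Pool.Agent.H.MP_c8cc4c_co

/-- `u` clamped to the interval `[min e (a/2), a - min e ((a+1)/2)]` -/
def clampf (a e u : ℕ) : ℕ := max (min e (a / 2)) (min u (a - min e ((a + 1) / 2)))

theorem clampf_le (a e u : ℕ) : clampf a e u ≤ a := by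
  unfold clampf
  omega

theorem clampf_zero {a u : ℕ} (hu : u ≤ a) : clampf a 0 u = u := by
  unfold clampf
  omega

/-- the clamp function is 1-Lipschitz -/
theorem clampf_lip {a e u e' u' : ℕ} (h1 : e ≤ e' + 1) (h2 : e' ≤ e + 1) (h3 : u ≤ u' + 1)
    (h4 : u' ≤ u + 1) : clampf a e u ≤ clampf a e' u' + 1 := by
  unfold clampf
  omega

/-- deep vertices go to the middle -/
theorem clampf_deep {a e u : ℕ} (h : (a + 1) / 2 ≤ e) : clampf a e u = a / 2 := by
  unfold clampf
  omega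

/-- the grid graph on `ℕ × ℕ` -/
def gridG : SimpleGraph (ℕ × ℕ) where
  Adj p q := gd p q = 1
  symm := ⟨fun p q h => by rw [gd_comm]; exact h⟩
  loopless := ⟨fun p h => by simp [gd] at h⟩

theorem Clamp_vert {A : Set (ℕ × ℕ)} (x y : ℕ) : ∀ n, (∀ i ≤ n, (x, y + i) ∈ A) →
    Near gridG A n (x, y) (x, y + n) := by
  intro n
  induction n with
  | zero =>
    intro h
    exact near_refl (h 0 (le_refl _))
  | succ n ih =>
    intro h
    refine near_trans (ih fun i hi => h i (by omega)) (near_adj (h n (by omega))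
      (h (n + 1) (le_refl _)) ?_)
    change gd (x, y + n) (x, y + (n + 1)) = 1
    simp only [gd]
    omega

theorem Clamp_hor {A : Set (ℕ × ℕ)} (x y : ℕ) : ∀ n, (∀ i ≤ n, (x + i, y) ∈ A) →
    Near gridG A n (x, y) (x + n, y) := by
  intro n
  induction n with
  | zero =>
    intro h
    exact near_refl (h 0 (le_refl _))
  | succ n ih =>
    intro h
    refine near_trans (ih fun i hi => h i (by omega)) (near_adj (h n (by omega))
      (h (n + 1) (le_refl _)) ?_)
    change gd (x + n, y) (x + (n + 1), y) = 1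
    simp only [gd]
    omega

/-- The square ring of `l^∞` radius `r` around `z` (inside `ℕ × ℕ` if `r ≤ z.1`, `r ≤ z.2`) is connected. -/
theorem ring_conn {z : ℕ × ℕ} {r : ℕ} (h1 : r ≤ z.1) (h2 : r ≤ z.2) (hr : 1 ≤ r) :
    ConnOn gridG {q | gi q z = r} := by
  obtain ⟨a, b⟩ := z
  simp only at h1 h2
  have hmem : ∀ x y : ℕ, (x, y) ∈ {q : ℕ × ℕ | gi q (a, b) = r} ↔
      (a ≤ x + r ∧ x ≤ a + r ∧ b ≤ y + r ∧ y ≤ b + r) ∧
        (x = a + r ∨ x + r = a ∨ y = b + r ∨ y + r = b) := by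
    intro x y
    simp only [Set.mem_ofPred_eq, gi]
    omega
  -- vertical segments on the left and right side
  have hv : ∀ x y y', (x = a + r ∨ x + r = a) → b ≤ y + r → y' ≤ b + r → y ≤ y' →
      ∃ n, Near gridG {q : ℕ × ℕ | gi q (a, b) = r} n (x, y) (x, y') := by
    intro x y y' hx hy hy' hyy
    refine ⟨y' - y, ?_⟩
    have := Clamp_vert (A := {q : ℕ × ℕ | gi q (a, b) = r}) x y (y' - y) (by
      intro i hi
      rw [hmem]
      omega)
    rw [Nat.add_sub_cancel' hyy] at this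
    exact this
  have hh : ∀ x x' y, (y = b + r ∨ y + r = b) → a ≤ x + r → x' ≤ a + r → x ≤ x' →
      ∃ n, Near gridG {q : ℕ × ℕ | gi q (a, b) = r} n (x, y) (x', y) := by
    intro x x' y hy hx hx' hxx
    refine ⟨x' - x, ?_⟩
    have := Clamp_hor (A := {q : ℕ × ℕ | gi q (a, b) = r}) x y (x' - x) (by
      intro i hi
      rw [hmem]
      omega)
    rw [Nat.add_sub_cancel' hxx] at this
    exact this
  have hc : (a + r, b + r) ∈ {q : ℕ × ℕ | gi q (a, b) = r} := by
    rw [hmem]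
    omega
  refine connOn_of_center hc ?_
  rintro ⟨x, y⟩ hxy
  rw [hmem] at hxy
  obtain ⟨⟨h3, h4, h5, h6⟩, h7 | h7 | h7 | h7⟩ := hxy
  · obtain ⟨n, hn⟩ := hv x y (b + r) (Or.inl h7) h5 (le_refl _) h6
    rw [h7] at hn ⊢
    exact ⟨n, near_symm hn⟩
  · obtain ⟨n, hn⟩ := hv x y (b + r) (Or.inr h7) h5 (le_refl _) h6
    obtain ⟨m, hm⟩ := hh x (a + r) (b + r) (Or.inl rfl) h3 (le_refl _) h4
    exact ⟨_, near_symm (near_trans hn hm)⟩
  · obtain ⟨n, hn⟩ := hh x (a + r) y (Or.inl h7) h3 (le_refl _) h4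
    rw [h7] at hn ⊢
    exact ⟨n, near_symm hn⟩
  · obtain ⟨n, hn⟩ := hh x (a + r) y (Or.inr h7) h3 (le_refl _) h4
    obtain ⟨m, hm⟩ := hv (a + r) y (b + r) (Or.inl rfl) h5 (le_refl _) h6
    exact ⟨_, near_symm (near_trans hn hm)⟩

/-- A step of a grid walk changes the `l^∞` distance to `z` by at most one. -/
theorem gi_step {p q z : ℕ × ℕ} (h : gd p q = 1) : gi p z ≤ gi q z + 1 := by
  unfold gd at h
  unfold gi
  omega

end Pool.Agent.H.MP_c8cc4c_co
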