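import Mathlib
import Pool.Agent.H.MP_c8cc4c_co.R.Clamp
import Pool.Agent.H.MP_c8cc4c_co.B.Sdist
import Pool.Agent.H.MP_c8cc4c_co.B.Path
import Pool.Agent.H.MP_c8cc4c_co.G.Mouth

/-! # MP_c8cc4c_co, part R, file 2: coordinates on the discs -/

open scoped Classical
open Finset

noncomputable section

namespace Pool.Agent.H.MP_c8cc4c_co

variable {M : PC} (Mo : Mouths M) (Q : Set M.V)

/-- the closed disc `i` -/
def cl (i : Mo.I) : Set M.V := {x | ∃ f, M.At f x ∧ Mo.c i f ≠ 0}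

/-- the boundary cycle as a set -/
def gam (i : Mo.I) : Set M.V := {v | ∃ t < Mo.n i, Mo.gv i t = v}

/-- the left side of the mouth -/
def lside (i : Mo.I) : Set M.V :=
  {v | ∃ t < Mo.n i, (bpt (Mo.a i) (Mo.b i) t).1 = 0 ∧ Mo.gv i t = v}

/-- the bottom side of the mouth -/
def bside (i : Mo.I) : Set M.V :=
  {v | ∃ t < Mo.n i, (bpt (Mo.a i) (Mo.b i) t).2 = 0 ∧ Mo.gv i t = v}

/-- distance to the boundary cycle -/
def eD (i : Mo.I) (x : M.V) : ℕ := sdist M.graph Q (gam Mo i) x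

/-- the coordinates of a vertex of the closed disc -/
def pc (i : Mo.I) (x : M.V) : ℕ × ℕ :=
  (clampf (Mo.a i) (eD Mo Q i x) (min (sdist M.graph Q (lside Mo i) x) (Mo.a i)),
   clampf (Mo.b i) (eD Mo Q i x) (min (sdist M.graph Q (bside Mo i) x) (Mo.b i)))

theorem pc_le (i : Mo.I) (x : M.V) : (pc Mo Q i x).1 ≤ Mo.a i ∧ (pc Mo Q i x).2 ≤ Mo.b i := by
  exact ⟨clampf_le _ _ _, clampf_le _ _ _⟩

/-- the closed disc = interior and boundary cycle -/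
theorem mem_cl (hM : M.IsSphere) (i : Mo.I) (x : M.V) :
    x ∈ cl Mo i ↔ x ∈ M.intr (Mo.c i) ∨ x ∈ gam Mo i := by
  constructor
  · rintro ⟨f, hf, hc⟩
    by_cases hx : x ∈ M.intr (Mo.c i)
    · exact Or.inl hx
    · exact Or.inr (on_gv Mo hM i hx hf hc)
  · rintro (hx | ⟨t, _, rfl⟩)
    · have h1 : ∃ y, x ≠ y := by
        by_cases h : x = Mo.gv i 0
        · exact ⟨Mo.gv i 1, fun h' => gv_succ_ne Mo i 0 (h.symm.trans h')⟩
        · exact ⟨_, h⟩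
      obtain ⟨y, hy⟩ := h1
      obtain ⟨f, hf⟩ := exists_at hM hy
      refine ⟨f, hf, ?_⟩
      rw [hx f hf]
      exact one_ne_zero
    · obtain ⟨f, g, -, hf, -, h1, -⟩ := ge_faces Mo hM i t
      refine ⟨f, ⟨_, hf, (Mo.ge_inc i t).1⟩, ?_⟩
      rw [h1]
      exact one_ne_zero

variable {l1 : ℕ} (hC : CutOut M Q l1 Mo)

include hC in
/-- the boundary cycle is in `Q` -/
theorem gam_Q (hM : M.IsSphere) (i : Mo.I) (t : ℕ) : Mo.gv i t ∈ Q := by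
  obtain ⟨f, g, -, hf, -, h1, -⟩ := ge_faces Mo hM i t
  refine hC.inQ i f _ ?_ ⟨_, hf, (Mo.ge_inc i t).1⟩
  rw [h1]
  exact one_ne_zero

include hC in
theorem cl_Q (i : Mo.I) {x : M.V} (hx : x ∈ cl Mo i) : x ∈ Q := by
  obtain ⟨f, hf, hc⟩ := hx
  exact hC.inQ i f x hc hf

include hC in
/-- the distances to the sides and to the boundary are finite on `Q` -/
theorem reach (hM : M.IsSphere) (hQ : ConnOn M.graph Q) (i : Mo.I) {x : M.V} (hx : x ∈ Q) :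
    (∃ l ∈ gam Mo i, ∃ k, Near M.graph Q k x l) ∧ (∃ l ∈ lside Mo i, ∃ k, Near M.graph Q k x l) ∧
      ∃ l ∈ bside Mo i, ∃ k, Near M.graph Q k x l := by
  have hn := n_ge Mo i
  have h0 : Mo.gv i 0 ∈ Q := gam_Q Mo Q hC hM i 0
  have h1 := hQ.2 x hx _ h0
  have hb : bpt (Mo.a i) (Mo.b i) 0 = (0, 0) := by simp [bpt]
  refine ⟨⟨_, ⟨0, by omega, rfl⟩, h1⟩, ⟨_, ⟨0, by omega, ?_, rfl⟩, h1⟩,
    ⟨_, ⟨0, by omega, ?_, rfl⟩, h1⟩⟩
  · rw [hb]
  · rw [hb]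

end Pool.Agent.H.MP_c8cc4c_co
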