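import Mathlib
import Pool.Agent.H.MP_c8cc4c_co.R.Coord
import Pool.Agent.H.MP_c8cc4c_co.B.Conn

/-! # MP_c8cc4c_co, part R, file 3: a chain of faces along the frontier of a component -/

open scoped Classical
open Finset

noncomputable section

namespace Pool.Agent.H.MP_c8cc4c_co

variable {M : PC} (Mo : Mouths M)

theorem HL1_cut (hM : M.IsSphere) (S : Set M.V) {e : M.E} {x y : M.V} (hxy : x ≠ y)
    (h : ∀ v, M.inc e v ↔ v = x ∨ v = y) :
    (if e ∈ M.cut S then (1 : ZMod 2) else 0) =
      (if x ∈ S then 1 else 0) + (if y ∈ S then 1 else 0) := by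
  have hc : e ∈ M.cut S ↔ (x ∈ S ∧ y ∉ S) ∨ (x ∉ S ∧ y ∈ S) := by
    unfold PC.cut
    rw [Finset.mem_filter]
    constructor
    · rintro ⟨-, ⟨u, hu, huS⟩, v, hv, hvS⟩
      rcases (h u).1 hu with rfl | rfl <;> rcases (h v).1 hv with rfl | rfl
      · exact absurd huS hvS
      · exact Or.inl ⟨huS, hvS⟩
      · exact Or.inr ⟨hvS, huS⟩
      · exact absurd huS hvS
    · rintro (⟨h1, h2⟩ | ⟨h1, h2⟩)
      · exact ⟨Finset.mem_univ _, ⟨x, (h x).2 (Or.inl rfl), h1⟩, y, (h y).2 (Or.inr rfl), h2⟩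
      · exact ⟨Finset.mem_univ _, ⟨y, (h y).2 (Or.inr rfl), h2⟩, x, (h x).2 (Or.inl rfl), h1⟩
  by_cases h1 : x ∈ S <;> by_cases h2 : y ∈ S
  · rw [if_neg (by rw [hc]; tauto), if_pos h1, if_pos h2]
    decide
  · rw [if_pos (hc.2 (Or.inl ⟨h1, h2⟩)), if_pos h1, if_neg h2]
    decide
  · rw [if_pos (hc.2 (Or.inr ⟨h1, h2⟩)), if_neg h1, if_pos h2]
    decide
  · rw [if_neg (by rw [hc]; tauto), if_neg h1, if_neg h2]
    decide

/-- The edges of a face in `cut S` are even in number: the sum over the edges of `f` of the number of ends in `S` is the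
sum over the vertices `v` of `f` in `S` of the number (two, `face_two`) of edges of `f` at `v`. -/
theorem cut_face_even (hM : M.IsSphere) (S : Set M.V) (f : M.F) :
    ∑ e ∈ univ.filter (fun e => M.bd f e), (if e ∈ M.cut S then (1 : ZMod 2) else 0) = 0 := by
  have h1 : ∀ e : M.E, (if e ∈ M.cut S then (1 : ZMod 2) else 0) =
      ∑ v : M.V, if M.inc e v ∧ v ∈ S then (1 : ZMod 2) else 0 := by
    intro e
    obtain ⟨x, y, hxy, h⟩ := hM.inc_two e
    rw [HL1_cut hM S hxy h]
    have h2 : ∀ v : M.V, (if M.inc e v ∧ v ∈ S then (1 : ZMod 2) else 0) =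
        if M.inc e v then (if v ∈ S then 1 else 0) else 0 := by
      intro v
      by_cases hv : M.inc e v <;> by_cases hs : v ∈ S <;> simp [hv, hs]
    rw [Finset.sum_congr rfl (fun v _ => h2 v), ← Finset.sum_filter]
    have h3 : univ.filter (fun v => M.inc e v) = {x, y} := by
      ext v
      simp [h v]
    rw [h3, Finset.sum_pair hxy]
  rw [Finset.sum_congr rfl (fun e _ => h1 e), Finset.sum_comm]
  refine Finset.sum_eq_zero fun v _ => ?_
  by_cases hs : v ∈ S
  · have h2 : ∀ e : M.E, (if M.inc e v ∧ v ∈ S then (1 : ZMod 2) else 0) =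
        if M.inc e v then 1 else 0 := by
      intro e
      by_cases hv : M.inc e v <;> simp [hv, hs]
    rw [Finset.sum_congr rfl (fun v _ => h2 v), ← Finset.sum_filter, Finset.filter_filter]
    by_cases hf : M.At f v
    · obtain ⟨e, e', hne, h⟩ := hM.face_two f v hf
      have h3 : univ.filter (fun d => M.bd f d ∧ M.inc d v) = {e, e'} := by
        ext d
        simp [h d]
      rw [h3, Finset.sum_pair hne]
      decide
    · have h3 : univ.filter (fun d => M.bd f d ∧ M.inc d v) = ∅ := by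
        ext d
        simp only [Finset.mem_filter, Finset.mem_univ, true_and, Finset.notMem_empty, iff_false]
        exact fun h => hf ⟨d, h⟩
      rw [h3, Finset.sum_empty]
  · refine Finset.sum_eq_zero fun e _ => ?_
    rw [if_neg (fun h => hs h.2)]

/-- Double count: for a set `R` of edges such that every face of the disc `i` contains an even number of elements of `R`,
the number of elements of `R` on the boundary cycle is even. (`∑ f in disc, ∑ e in bd f, 1_R e = ∑ e, 1_R e * dF (c i) e`.) -/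
theorem disc_parity (hM : M.IsSphere) (i : Mo.I) (R : Set M.E)
    (h : ∀ f, Mo.c i f ≠ 0 →
      ∑ e ∈ univ.filter (fun e => M.bd f e), (if e ∈ R then (1 : ZMod 2) else 0) = 0) :
    ∑ k ∈ range (Mo.n i), (if Mo.ge i k ∈ R then (1 : ZMod 2) else 0) = 0 := by
  -- double sum
  have h1 : ∑ f, Mo.c i f * ∑ e ∈ univ.filter (fun e => M.bd f e),
      (if e ∈ R then (1 : ZMod 2) else 0) = 0 := by
    refine Finset.sum_eq_zero fun f _ => ?_
    by_cases hf : Mo.c i f = 0
    · rw [hf, zero_mul]
    · rw [h f hf, mul_zero]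
  have h2 : ∑ f, Mo.c i f * ∑ e ∈ univ.filter (fun e => M.bd f e),
      (if e ∈ R then (1 : ZMod 2) else 0) =
      ∑ e, (if e ∈ R then (1 : ZMod 2) else 0) * M.dF (Mo.c i) e := by
    have h3 : ∀ f : M.F, Mo.c i f * ∑ e ∈ univ.filter (fun e => M.bd f e),
        (if e ∈ R then (1 : ZMod 2) else 0) =
        ∑ e : M.E, if M.bd f e then Mo.c i f * (if e ∈ R then (1 : ZMod 2) else 0) else 0 := by
      intro f
      rw [Finset.mul_sum, Finset.sum_filter]
    have h4 : ∀ e : M.E, (if e ∈ R then (1 : ZMod 2) else 0) * M.dF (Mo.c i) e =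
        ∑ f : M.F, if M.bd f e then Mo.c i f * (if e ∈ R then (1 : ZMod 2) else 0) else 0 := by
      intro e
      unfold PC.dF
      rw [Finset.mul_sum, Finset.sum_filter]
      refine Finset.sum_congr rfl fun f _ => ?_
      rw [mul_comm]
    rw [Finset.sum_congr rfl (fun f _ => h3 f), Finset.sum_congr rfl (fun e _ => h4 e),
      Finset.sum_comm]
  rw [h2] at h1
  have h5 : ∑ e, (if e ∈ R then (1 : ZMod 2) else 0) * M.dF (Mo.c i) e =
      ∑ e ∈ (range (Mo.n i)).image (Mo.ge i), (if e ∈ R then (1 : ZMod 2) else 0) := by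
    symm
    have h6 : ∀ e ∈ (range (Mo.n i)).image (Mo.ge i), (if e ∈ R then (1 : ZMod 2) else 0) =
        (if e ∈ R then (1 : ZMod 2) else 0) * M.dF (Mo.c i) e := by
      intro e he
      rw [Finset.mem_image] at he
      obtain ⟨k, -, rfl⟩ := he
      have : M.dF (Mo.c i) (Mo.ge i k) ≠ 0 := (Mo.dc i _).2 ⟨k, rfl⟩
      rw [zmod2_ne_zero] at this
      rw [this, mul_one]
    rw [Finset.sum_congr rfl h6]
    refine Finset.sum_subset (Finset.subset_univ _) ?_
    intro e _ he
    have h7 : M.dF (Mo.c i) e = 0 := by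
      by_contra hne
      obtain ⟨t, ht⟩ := (Mo.dc i e).1 hne
      apply he
      rw [Finset.mem_image]
      refine ⟨t % Mo.n i, ?_, ?_⟩
      · rw [Finset.mem_range]
        exact Nat.mod_lt _ (by have := n_ge Mo i; omega)
      · rw [← ge_mod, ht]
    rw [h7, mul_zero]
  rw [h5, Finset.sum_image] at h1
  · exact h1
  · intro s hs t ht hst
    exact ge_inj Mo hM i (Finset.mem_range.1 hs) (Finset.mem_range.1 ht) hst

/-- the edges of `cut S` on an arc of the boundary cycle: their number has the parity of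
`[gv s ∈ S] + [gv t ∈ S]` -/
theorem arc_parity (hM : M.IsSphere) (i : Mo.I) (S : Set M.V) {s t : ℕ} (hst : s ≤ t) :
    ∑ k ∈ Ico s t, (if Mo.ge i k ∈ M.cut S then (1 : ZMod 2) else 0) =
      (if Mo.gv i s ∈ S then 1 else 0) + (if Mo.gv i t ∈ S then 1 else 0) := by
  induction t, hst using Nat.le_induction with
  | base =>
    rw [Finset.Ico_self, Finset.sum_empty]
    exact (CharTwo.add_self_eq_zero _).symm
  | succ t hst ih =>
    rw [Finset.sum_Ico_succ_top hst, ih,
      HL1_cut hM S (gv_succ_ne Mo i t) (ge_ends Mo hM i t)]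
    have h : ∀ a b c : ZMod 2, a + b + (b + c) = a + c := by decide
    exact h _ _ _

end Pool.Agent.H.MP_c8cc4c_co
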