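import Mathlib
import Pool.Agent.H.MP_c8cc4c_co.R.HL1

/-! # MP_c8cc4c_co, part R, file 3b: chains of edges and vertices -/

open scoped Classical
open Finset

noncomputable section

namespace Pool.Agent.H.MP_c8cc4c_co

variable {M : PC} (Mo : Mouths M)

/-- a chain of edges of length `m` from the arc `[s, t)` to `e` -/
def HL2_R (i : Mo.I) (K : Set M.V) (s t : ℕ) (m : ℕ) (g : ℕ → M.E) (e : M.E) : Prop :=
  (∀ j ≤ m, g j ∈ M.cut K ∧ ∃ f, Mo.c i f ≠ 0 ∧ M.bd f (g j)) ∧
      (∀ j < m, ∃ f, Mo.c i f ≠ 0 ∧ M.bd f (g j) ∧ M.bd f (g (j + 1))) ∧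
      (∃ k, s ≤ k ∧ k < t ∧ g 0 = Mo.ge i k) ∧ g m = e

theorem HL2_ext {i : Mo.I} {K : Set M.V} {s t : ℕ} {m : ℕ} {g : ℕ → M.E} {e e' : M.E}
    (h : HL2_R Mo i K s t m g e) {f : M.F} (hf : Mo.c i f ≠ 0) (he : M.bd f e) (he' : M.bd f e')
    (hc : e' ∈ M.cut K) : HL2_R Mo i K s t (m + 1) (fun j => if j ≤ m then g j else e') e' := by
  obtain ⟨h1, h2, ⟨k, hk1, hk2, hk3⟩, h4⟩ := h
  refine ⟨?_, ?_, ⟨k, hk1, hk2, ?_⟩, ?_⟩
  · intro j hj
    by_cases hjm : j ≤ m
    · simp only [if_pos hjm]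
      exact h1 j hjm
    · simp only [if_neg hjm]
      exact ⟨hc, f, hf, he'⟩
  · intro j hj
    by_cases hjm : j < m
    · simp only [if_pos hjm.le, if_pos (Nat.succ_le_of_lt hjm)]
      exact h2 j hjm
    · have : j = m := by omega
      subst this
      simp only [if_pos (le_refl j), if_neg (show ¬ j + 1 ≤ j by omega)]
      rw [h4]
      exact ⟨f, hf, he, he'⟩
  · simp only [if_pos (Nat.zero_le m)]
    exact hk3
  · simp only [if_neg (show ¬ m + 1 ≤ m by omega)]

/-- Chain of edges. Let `K` be a set of vertices containing `gv i s` but not `gv i t`, `s < t < n i`. There is a sequence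
of edges `g 0, ..., g m` in `cut K` such that consecutive ones are in a common face of the disc `i`, `g 0 = ge i k` with
`s ≤ k < t` and `g m = ge i k'` with `k' < s` or `t ≤ k' < n i`. (Let `R` be the set of edges `e ∈ cut K` which have a face in the disc `i`
and are reachable from some `ge i k ∈ cut K`, `s ≤ k < t`, by such a sequence. Every face of the disc contains an even number of elements of `R`:
none or all elements of `cut K` in it (`cut_face_even`). If no `ge i k'` of the complementary arc were in `R`, the elements of `R` on the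
boundary cycle would be the `ge i k ∈ cut K`, `s ≤ k < t`, an odd number (`arc_parity`), contrary to
`disc_parity`.) -/
theorem edge_chain (hM : M.IsSphere) (i : Mo.I) (K : Set M.V) {s t : ℕ} (hst : s < t)
    (ht : t < Mo.n i) (hs : Mo.gv i s ∈ K) (ht' : Mo.gv i t ∉ K) :
    ∃ (m : ℕ) (g : ℕ → M.E), (∀ j ≤ m, g j ∈ M.cut K ∧ ∃ f, Mo.c i f ≠ 0 ∧ M.bd f (g j)) ∧
      (∀ j < m, ∃ f, Mo.c i f ≠ 0 ∧ M.bd f (g j) ∧ M.bd f (g (j + 1))) ∧
      (∃ k, s ≤ k ∧ k < t ∧ g 0 = Mo.ge i k) ∧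
      ∃ k', (k' < s ∨ (t ≤ k' ∧ k' < Mo.n i)) ∧ g m = Mo.ge i k' := by
  by_contra hno
  push Not at hno
  set R : Set M.E := {e | ∃ m g, HL2_R Mo i K s t m g e} with hR
  have hRc : ∀ e ∈ R, e ∈ M.cut K := by
    rintro e ⟨m, g, h⟩
    have := (h.1 m (le_refl _)).1
    rw [h.2.2.2] at this
    exact this
  -- the boundary edges of the arc
  have harc : ∀ k, s ≤ k → k < t → (Mo.ge i k ∈ R ↔ Mo.ge i k ∈ M.cut K) := by
    intro k hk1 hk2
    refine ⟨hRc _, fun hc => ?_⟩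
    obtain ⟨f, g, -, hf, -, hcf, -⟩ := ge_faces Mo hM i k
    refine ⟨0, fun _ => Mo.ge i k, ?_, ?_, ⟨k, hk1, hk2, rfl⟩, rfl⟩
    · intro j _
      exact ⟨hc, f, by rw [hcf]; exact one_ne_zero, hf⟩
    · intro j hj
      omega
  have hcomp : ∀ k, (k < s ∨ (t ≤ k ∧ k < Mo.n i)) → Mo.ge i k ∉ R := by
    rintro k hk ⟨m, g, h⟩
    exact hno m g h.1 h.2.1 h.2.2.1 k hk h.2.2.2
  have hpar := disc_parity Mo hM i R (by
    intro f hf
    by_cases hex : ∃ e, M.bd f e ∧ e ∈ R
    · obtain ⟨e, he, m, g, h⟩ := hex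
      refine Eq.trans (Finset.sum_congr rfl fun e' he' => ?_) (cut_face_even hM K f)
      rw [Finset.mem_filter] at he'
      by_cases hc : e' ∈ M.cut K
      · rw [if_pos hc, if_pos ⟨m + 1, _, HL2_ext Mo h hf he he'.2 hc⟩]
      · rw [if_neg hc, if_neg (fun h => hc (hRc _ h))]
    · refine Finset.sum_eq_zero fun e he => ?_
      rw [Finset.mem_filter] at he
      rw [if_neg (fun h => hex ⟨e, he.2, h⟩)])
  have hsub : Finset.Ico s t ⊆ range (Mo.n i) := by
    intro k hk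
    rw [Finset.mem_Ico] at hk
    rw [Finset.mem_range]
    omega
  rw [← Finset.sum_subset hsub (by
    intro k hk hk'
    rw [Finset.mem_range] at hk
    rw [Finset.mem_Ico] at hk'
    rw [if_neg (hcomp k (by omega))])] at hpar
  have h2 := arc_parity Mo hM i K hst.le
  rw [if_pos hs, if_neg ht', add_zero] at h2
  have h3 : ∑ k ∈ Finset.Ico s t, (if Mo.ge i k ∈ R then (1 : ZMod 2) else 0) =
      ∑ k ∈ Finset.Ico s t, (if Mo.ge i k ∈ M.cut K then (1 : ZMod 2) else 0) := by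
    refine Finset.sum_congr rfl fun k hk => ?_
    rw [Finset.mem_Ico] at hk
    simp only [harc k hk.1 hk.2]
  rw [h3, h2] at hpar
  exact one_ne_zero hpar

/-- The chain of vertices (HL1). `A` is a set of vertices of the closed disc, `gv i s`, `gv i t` are in `A` and not joined in `A`.
Apply `edge_chain` to `K` = component of `gv i s` in `A`; `y j` = the end of `g j` not in `K`; it is in the closed disc and
not in `A`. -/
theorem vertex_chain (hM : M.IsSphere) (i : Mo.I) (A : Set M.V) {s t : ℕ}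
    (hst : s < t) (ht : t < Mo.n i) (hs : Mo.gv i s ∈ A) (ht' : Mo.gv i t ∈ A)
    (hn : ∀ n, ¬ Near M.graph A n (Mo.gv i s) (Mo.gv i t)) :
    ∃ (m : ℕ) (y : ℕ → M.V), (∀ j ≤ m, y j ∈ cl Mo i ∧ y j ∉ A) ∧
      (∀ j < m, ∃ f, Mo.c i f ≠ 0 ∧ M.At f (y j) ∧ M.At f (y (j + 1))) ∧
      (∃ u, s < u ∧ u < t ∧ y 0 = Mo.gv i u) ∧
      ∃ v, (v < s ∨ (t < v ∧ v < Mo.n i)) ∧ y m = Mo.gv i v := by
  set K := comp M.graph A (Mo.gv i s) with hK
  have hKc := comp_isComp (G := M.graph) hs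
  have hsK := mem_comp_self (G := M.graph) hs
  have htK : Mo.gv i t ∉ K := fun h => by
    obtain ⟨n, h⟩ := h
    exact hn n h
  obtain ⟨m, g, h1, h2, ⟨k, hk1, hk2, hk3⟩, k', hk'1, hk'2⟩ :=
    edge_chain Mo hM i K hst ht hsK htK
  set y : ℕ → M.V := fun j => if h : ∃ v, M.inc (g j) v ∧ v ∉ K then h.choose else Mo.gv i 0
    with hy
  have hy1 : ∀ j ≤ m, M.inc (g j) (y j) ∧ y j ∉ K := by
    intro j hj
    have hc := (h1 j hj).1
    unfold PC.cut at hc
    rw [Finset.mem_filter] at hc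
    have h := hc.2.2
    simp only [hy, dif_pos h]
    exact h.choose_spec
  have hy2 : ∀ j ≤ m, y j ∉ A := by
    intro j hj hA
    have hc := (h1 j hj).1
    unfold PC.cut at hc
    rw [Finset.mem_filter] at hc
    obtain ⟨x, hx, hxK⟩ := hc.2.1
    have hne : x ≠ y j := by
      intro h
      rw [h] at hxK
      exact (hy1 j hj).2 hxK
    exact (hy1 j hj).2 (hKc.2.2 x hxK (y j) hA ⟨hne, g j, hx, (hy1 j hj).1⟩)
  refine ⟨m, y, ?_, ?_, ?_, ?_⟩
  · intro j hj
    obtain ⟨-, f, hf, hbd⟩ := h1 j hj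
    exact ⟨⟨f, ⟨g j, hbd, (hy1 j hj).1⟩, hf⟩, hy2 j hj⟩
  · intro j hj
    obtain ⟨f, hf, hb1, hb2⟩ := h2 j hj
    exact ⟨f, hf, ⟨g j, hb1, (hy1 j hj.le).1⟩, ⟨g (j + 1), hb2, (hy1 (j + 1) hj).1⟩⟩
  · have h3 := (hy1 0 (Nat.zero_le _)).1
    have h4 := hy2 0 (Nat.zero_le _)
    rw [hk3, ge_ends Mo hM i k] at h3
    rcases h3 with h3 | h3
    · refine ⟨k, ?_, hk2, h3⟩
      rcases Nat.eq_or_lt_of_le hk1 with h5 | h5
      · rw [h3, ← h5] at h4
        exact absurd hs h4
      · exact h5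
    · refine ⟨k + 1, by omega, ?_, h3⟩
      by_contra h5
      have : k + 1 = t := by omega
      rw [h3, this] at h4
      exact h4 ht'
  · have h3 := (hy1 m (le_refl _)).1
    have h4 := hy2 m (le_refl _)
    rw [hk'2, ge_ends Mo hM i k'] at h3
    rcases h3 with h3 | h3
    · refine ⟨k', ?_, h3⟩
      rcases hk'1 with h5 | ⟨h5, h6⟩
      · exact Or.inl h5
      · right
        refine ⟨?_, h6⟩
        rcases Nat.eq_or_lt_of_le h5 with h7 | h7
        · rw [h3, ← h7] at h4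
          exact absurd ht' h4
        · exact h7
    · rcases hk'1 with h5 | ⟨h5, h6⟩
      · refine ⟨k' + 1, Or.inl ?_, h3⟩
        by_contra h7
        have : k' + 1 = s := by omega
        rw [h3, this] at h4
        exact h4 hs
      · by_cases h7 : k' + 1 < Mo.n i
        · exact ⟨k' + 1, Or.inr ⟨by omega, h7⟩, h3⟩
        · have h8 : k' + 1 = 0 + 2 * (Mo.a i + Mo.b i) := by
            have : Mo.n i = 2 * (Mo.a i + Mo.b i) := rfl
            omega
          rw [h8, Mo.gv_per] at h3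
          refine ⟨0, Or.inl ?_, h3⟩
          by_contra h9
          have : s = 0 := by omega
          rw [h3, ← this] at h4
          exact h4 hs

end Pool.Agent.H.MP_c8cc4c_co
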