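import Mathlib
import Pool.Agent.H.MP_c8cc4c_co.R.Coord

/-! # MP_c8cc4c_co, part R, file 2b: coordinates on the discs -/

open scoped Classical
open Finset

noncomputable section

namespace Pool.Agent.H.MP_c8cc4c_co

variable {M : PC} (Mo : Mouths M) (Q : Set M.V)

variable {l1 : ℕ} (hC : CutOut M Q l1 Mo)

theorem Coord2_adj (i : Mo.I) (t : ℕ) : M.graph.Adj (Mo.gv i t) (Mo.gv i (t + 1)) :=
  ⟨gv_succ_ne Mo i t, Mo.ge i t, (Mo.ge_inc i t).1, (Mo.ge_inc i t).2⟩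

include hC in
theorem Coord2_walk (hM : M.IsSphere) (i : Mo.I) (s k : ℕ) :
    Near M.graph Q k (Mo.gv i s) (Mo.gv i (s + k)) := by
  induction k with
  | zero => exact near_refl (gam_Q Mo Q hC hM i s)
  | succ k ih =>
    exact near_trans ih (near_adj (gam_Q Mo Q hC hM i _) (gam_Q Mo Q hC hM i _)
      (Coord2_adj Mo i (s + k)))

include hC in
theorem Coord2_walk' (hM : M.IsSphere) (i : Mo.I) {s t : ℕ} (h : s ≤ t) :
    Near M.graph Q (t - s) (Mo.gv i s) (Mo.gv i t) := by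
  have h1 := Coord2_walk Mo Q hC hM i s (t - s)
  rwa [Nat.add_sub_cancel' h] at h1

include hC in
/-- the isometry, symmetric form -/
theorem Coord2_iso (i : Mo.I) {s t k : ℕ} (hs : s < Mo.n i) (ht : t < Mo.n i)
    (h : Near M.graph Q k (Mo.gv i t) (Mo.gv i s)) :
    (s ≤ t ∧ (t - s ≤ k ∨ Mo.n i - (t - s) ≤ k)) ∨
      (t ≤ s ∧ (s - t ≤ k ∨ Mo.n i - (s - t) ≤ k)) := by
  rcases Nat.le_total s t with h1 | h1
  · exact Or.inl ⟨h1, hC.iso i s t k h1 ht (near_symm h)⟩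
  · exact Or.inr ⟨h1, hC.iso i t s k h1 hs h⟩

theorem Coord2_up1 (a b t : ℕ) : (bpt a b t).1 ≤ t ∧ (bpt a b t).1 ≤ 2 * a + b - t := by
  unfold bpt
  split_ifs <;> simp only [] <;> omega

theorem Coord2_z1 {a b s : ℕ} (ha : 1 ≤ a) (hs : s < 2 * (a + b)) (h0 : (bpt a b s).1 = 0) :
    s = 0 ∨ 2 * a + b ≤ s := by
  unfold bpt at h0
  split_ifs at h0 <;> simp only [] at h0 <;> omega

theorem Coord2_up2 {a b t : ℕ} (ha : 1 ≤ a) (ht : t < 2 * (a + b)) :
    (bpt a b t).2 ≤ t - a ∧ (bpt a b t).2 ≤ 2 * (a + b) - t := by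
  unfold bpt
  split_ifs <;> simp only [] <;> omega

theorem Coord2_z2 {a b s : ℕ} (hb : 1 ≤ b) (hs : s < 2 * (a + b)) (h0 : (bpt a b s).2 = 0) :
    s ≤ a := by
  unfold bpt at h0
  split_ifs at h0 <;> simp only [] at h0 <;> omega

theorem Coord2_lo1 {a b s t k : ℕ} (ha : 1 ≤ a) (hs : s < 2 * (a + b))
    (ht : t < 2 * (a + b)) (h0 : (bpt a b s).1 = 0)
    (h : (s ≤ t ∧ (t - s ≤ k ∨ 2 * (a + b) - (t - s) ≤ k)) ∨
      (t ≤ s ∧ (s - t ≤ k ∨ 2 * (a + b) - (s - t) ≤ k))) : (bpt a b t).1 ≤ k := by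
  obtain ⟨h1, h2⟩ := Coord2_up1 a b t
  generalize (bpt a b t).1 = x at h1 h2 ⊢
  rcases Coord2_z1 ha hs h0 with h3 | h3 <;> rcases h with ⟨h4, h5 | h5⟩ | ⟨h4, h5 | h5⟩ <;> omega

theorem Coord2_lo2 {a b s t k : ℕ} (ha : 1 ≤ a) (hb : 1 ≤ b) (hs : s < 2 * (a + b))
    (ht : t < 2 * (a + b)) (h0 : (bpt a b s).2 = 0)
    (h : (s ≤ t ∧ (t - s ≤ k ∨ 2 * (a + b) - (t - s) ≤ k)) ∨
      (t ≤ s ∧ (s - t ≤ k ∨ 2 * (a + b) - (s - t) ≤ k))) : (bpt a b t).2 ≤ k := by
  obtain ⟨h1, h2⟩ := Coord2_up2 ha ht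
  generalize (bpt a b t).2 = x at h1 h2 ⊢
  have h3 := Coord2_z2 hb hs h0
  rcases h with ⟨h4, h5 | h5⟩ | ⟨h4, h5 | h5⟩ <;> omega

theorem Coord2_gi_self (p : ℕ × ℕ) : gi p p = 0 := by
  unfold gi
  simp

theorem Coord2_gi_comm (p q : ℕ × ℕ) : gi p q = gi q p := by
  unfold gi
  rw [Nat.add_comm (p.1 - q.1), Nat.add_comm (p.2 - q.2)]

theorem Coord2_gi_tri (p q r : ℕ × ℕ) : gi p r ≤ gi p q + gi q r := by
  unfold gi
  have h1 : p.1 - r.1 + (r.1 - p.1) ≤ (p.1 - q.1 + (q.1 - p.1)) + (q.1 - r.1 + (r.1 - q.1)) := by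
    omega
  have h2 : p.2 - r.2 + (r.2 - p.2) ≤ (p.2 - q.2 + (q.2 - p.2)) + (q.2 - r.2 + (r.2 - q.2)) := by
    omega
  exact max_le (h1.trans (Nat.add_le_add (le_max_left _ _) (le_max_left _ _)))
    (h2.trans (Nat.add_le_add (le_max_right _ _) (le_max_right _ _)))

theorem Coord2_four {f : ℕ → ℕ × ℕ} (g0 : gi (f 0) (f 1) ≤ 1) (g1 : gi (f 1) (f 2) ≤ 1)
    (g2 : gi (f 2) (f 3) ≤ 1) (g3 : gi (f 3) (f 0) ≤ 1) {s t : ℕ} (hs : s < 4) (ht : t < 4) :
    gi (f s) (f t) ≤ 2 := by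
  have a1 := Coord2_gi_comm (f 0) (f 1)
  have a2 := Coord2_gi_comm (f 1) (f 2)
  have a3 := Coord2_gi_comm (f 2) (f 3)
  have a4 := Coord2_gi_comm (f 3) (f 0)
  have a5 := Coord2_gi_comm (f 2) (f 0)
  have a6 := Coord2_gi_comm (f 3) (f 1)
  have t1 := Coord2_gi_tri (f 0) (f 1) (f 2)
  have t2 := Coord2_gi_tri (f 1) (f 2) (f 3)
  have z0 := Coord2_gi_self (f 0)
  have z1 := Coord2_gi_self (f 1)
  have z2 := Coord2_gi_self (f 2)
  have z3 := Coord2_gi_self (f 3)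
  interval_cases s <;> interval_cases t <;> omega

theorem Coord2_bpt1 {a b t : ℕ} (ha : 1 ≤ a) (hb : 1 ≤ b) (ht : t < 2 * (a + b)) :
    (bpt a b t).1 = a ∨ (∃ s ≤ t, (bpt a b s).1 = 0 ∧ t - s = (bpt a b t).1) ∨
      ∃ s, t ≤ s ∧ s < 2 * (a + b) ∧ (bpt a b s).1 = 0 ∧ s - t = (bpt a b t).1 := by
  rcases Nat.lt_or_ge a t with h1 | h1
  · rcases Nat.lt_or_ge (a + b) t with h2 | h2
    · rcases Nat.lt_or_ge (2 * a + b) t with h3 | h3
      · right; left
        refine ⟨t, le_rfl, ?_, ?_⟩ <;> unfold bpt <;>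
          rw [if_neg (by omega), if_neg (by omega), if_neg (by omega)] <;> simp
      · right; right
        refine ⟨2 * a + b, h3, by omega, ?_, ?_⟩
        · unfold bpt
          rw [if_neg (by omega), if_neg (by omega), if_pos (by omega)]
          simp
        · unfold bpt
          rw [if_neg (by omega), if_neg (by omega), if_pos (by omega)]
    · left
      unfold bpt
      rw [if_neg (by omega), if_pos (by omega)]
  · right; left
    refine ⟨0, Nat.zero_le _, ?_, ?_⟩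
    · unfold bpt
      rw [if_pos (by omega)]
    · unfold bpt
      rw [if_pos (by omega)]
      simp

theorem Coord2_bpt2 {a b t : ℕ} (ha : 1 ≤ a) (hb : 1 ≤ b) (ht : t < 2 * (a + b)) :
    (bpt a b t).2 = b ∨ (∃ s ≤ t, (bpt a b s).2 = 0 ∧ t - s = (bpt a b t).2) ∨
      2 * (a + b) - t = (bpt a b t).2 := by
  rcases Nat.lt_or_ge a t with h1 | h1
  · rcases Nat.lt_or_ge (a + b) t with h2 | h2
    · rcases Nat.lt_or_ge (2 * a + b) t with h3 | h3
      · right; right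
        unfold bpt
        rw [if_neg (by omega), if_neg (by omega), if_neg (by omega)]
      · left
        unfold bpt
        rw [if_neg (by omega), if_neg (by omega), if_pos (by omega)]
    · right; left
      refine ⟨a, h1.le, ?_, ?_⟩
      · unfold bpt
        rw [if_pos le_rfl]
      · unfold bpt
        rw [if_neg (by omega), if_pos (by omega)]
  · right; left
    refine ⟨t, le_rfl, ?_, ?_⟩
    · unfold bpt
      rw [if_pos h1]
    · unfold bpt
      rw [if_pos h1]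
      simp

theorem Coord2_le {a b t : ℕ} (ha : 1 ≤ a) (hb : 1 ≤ b) (ht : t < 2 * (a + b)) :
    (bpt a b t).1 ≤ a ∧ (bpt a b t).2 ≤ b := by
  have h := bpt_le ha hb ht
  exact ⟨h.1, h.2.1⟩

include hC in
/-- The distance from `gv i t` to the left side, cut off at `a`, is the first coordinate of `bpt t`. Upper bound: walk along
the boundary. Lower bound: `iso` (isometry of the boundary cycle in `Q`): if `Near Q k (gv t) (gv s)` and `(bpt s).1 = 0`
then the cyclic distance of `s` and `t` is at most `k`, and it is at least `min ((bpt t).1) a` (case distinction and `omega`). -/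
theorem sdist_lside (hM : M.IsSphere) (hQ : ConnOn M.graph Q) (i : Mo.I) {t : ℕ}
    (ht : t < Mo.n i) : min (sdist M.graph Q (lside Mo i) (Mo.gv i t)) (Mo.a i) =
      (bpt (Mo.a i) (Mo.b i) t).1 := by
  have ha := Mo.ha i
  have hb : 1 ≤ Mo.b i := ha.trans (Mo.hab i)
  have ht' : t < 2 * (Mo.a i + Mo.b i) := ht
  obtain ⟨-, hr, -⟩ := reach Mo Q hC hM hQ i (gam_Q Mo Q hC hM i t)
  apply le_antisymm
  · rcases Coord2_bpt1 ha hb ht' with h | ⟨s, hst, h0, h⟩ | ⟨s, hst, hs, h0, h⟩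
    · rw [h]
      exact min_le_right _ _
    · refine (min_le_left _ _).trans ?_
      rw [← h]
      exact sdist_le _ ⟨s, lt_of_le_of_lt hst ht, h0, rfl⟩
        (near_symm (Coord2_walk' Mo Q hC hM i hst))
    · refine (min_le_left _ _).trans ?_
      rw [← h]
      exact sdist_le _ ⟨s, hs, h0, rfl⟩ (Coord2_walk' Mo Q hC hM i hst)
  · refine le_min ?_ (Coord2_le ha hb ht').1
    obtain ⟨l, ⟨s, hs, h0, rfl⟩, hl⟩ := sdist_near _ hr
    exact Coord2_lo1 ha hs ht' h0 (Coord2_iso Mo Q hC i hs ht hl)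

include hC in
theorem sdist_bside (hM : M.IsSphere) (hQ : ConnOn M.graph Q) (i : Mo.I) {t : ℕ}
    (ht : t < Mo.n i) : min (sdist M.graph Q (bside Mo i) (Mo.gv i t)) (Mo.b i) =
      (bpt (Mo.a i) (Mo.b i) t).2 := by
  have ha := Mo.ha i
  have hb : 1 ≤ Mo.b i := ha.trans (Mo.hab i)
  have ht' : t < 2 * (Mo.a i + Mo.b i) := ht
  obtain ⟨-, -, hr⟩ := reach Mo Q hC hM hQ i (gam_Q Mo Q hC hM i t)
  apply le_antisymm
  · rcases Coord2_bpt2 ha hb ht' with h | ⟨s, hst, h0, h⟩ | h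
    · rw [h]
      exact min_le_right _ _
    · refine (min_le_left _ _).trans ?_
      rw [← h]
      exact sdist_le _ ⟨s, lt_of_le_of_lt hst ht, h0, rfl⟩
        (near_symm (Coord2_walk' Mo Q hC hM i hst))
    · refine (min_le_left _ _).trans ?_
      rw [← h]
      have h1 := Coord2_walk' Mo Q hC hM i ht'.le
      have h2 := Mo.gv_per i 0
      rw [Nat.zero_add] at h2
      rw [h2] at h1
      refine sdist_le _ ⟨0, lt_of_le_of_lt (Nat.zero_le _) ht, ?_, rfl⟩ h1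
      unfold bpt
      rw [if_pos (Nat.zero_le _)]
  · refine le_min ?_ (Coord2_le ha hb ht').2
    obtain ⟨l, ⟨s, hs, h0, rfl⟩, hl⟩ := sdist_near _ hr
    exact Coord2_lo2 ha hb hs ht' h0 (Coord2_iso Mo Q hC i hs ht hl)

include hC in
/-- the coordinates on the boundary -/
theorem pc_bd (hM : M.IsSphere) (hQ : ConnOn M.graph Q) (i : Mo.I) {t : ℕ}
    (ht : t < Mo.n i) : pc Mo Q i (Mo.gv i t) = bpt (Mo.a i) (Mo.b i) t := by
  have ha := Mo.ha i
  have hb : 1 ≤ Mo.b i := ha.trans (Mo.hab i)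
  have h0 : eD Mo Q i (Mo.gv i t) = 0 :=
    Nat.le_zero.1 (sdist_le _ ⟨t, ht, rfl⟩ (near_refl (gam_Q Mo Q hC hM i t)))
  unfold pc
  rw [h0, clampf_zero (min_le_right _ _), clampf_zero (min_le_right _ _),
    sdist_lside Mo Q hC hM hQ i ht, sdist_bside Mo Q hC hM hQ i ht]

include hC in
/-- the coordinates change by at most one along an edge in `Q` (`sdist_adj`, `clampf_lip`) -/
theorem pc_adj (hM : M.IsSphere) (hQ : ConnOn M.graph Q) (i : Mo.I) {x y : M.V} (hx : x ∈ Q)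
    (hy : y ∈ Q) (hxy : M.graph.Adj x y) : gi (pc Mo Q i x) (pc Mo Q i y) ≤ 1 := by
  obtain ⟨hx1, hx2, hx3⟩ := reach Mo Q hC hM hQ i hx
  obtain ⟨hy1, hy2, hy3⟩ := reach Mo Q hC hM hQ i hy
  have e1 := sdist_adj _ hx hxy hy1
  have e2 := sdist_adj _ hy hxy.symm hx1
  have l1 := sdist_adj _ hx hxy hy2
  have l2 := sdist_adj _ hy hxy.symm hx2
  have b1 := sdist_adj _ hx hxy hy3
  have b2 := sdist_adj _ hy hxy.symm hx3
  have c1 : (pc Mo Q i x).1 ≤ (pc Mo Q i y).1 + 1 := clampf_lip e1 e2 (by omega) (by omega)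
  have c2 : (pc Mo Q i y).1 ≤ (pc Mo Q i x).1 + 1 := clampf_lip e2 e1 (by omega) (by omega)
  have c3 : (pc Mo Q i x).2 ≤ (pc Mo Q i y).2 + 1 := clampf_lip e1 e2 (by omega) (by omega)
  have c4 : (pc Mo Q i y).2 ≤ (pc Mo Q i x).2 + 1 := clampf_lip e2 e1 (by omega) (by omega)
  unfold gi
  omega

include hC in
/-- the coordinates of two vertices of a face in the disc differ by at most two: in a quad (`quad_cycle`) the two
vertices are joined by a walk of length at most two along the face -/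
theorem pc_face (hM : M.IsSphere) (hq : M.Quad) (hQ : ConnOn M.graph Q) (i : Mo.I) {x y : M.V}
    {f : M.F} (hf : Mo.c i f ≠ 0) (hx : M.At f x) (hy : M.At f y) :
    gi (pc Mo Q i x) (pc Mo Q i y) ≤ 2 := by
  obtain ⟨v, e, hv4, -, hvi, -, hinc, hbd, hat⟩ := quad_cycle hM hq f
  have hQv : ∀ t, v t ∈ Q := by
    intro t
    have h1 : v t = v (t % 4) := by
      have h2 : Function.Periodic v 4 := hv4
      exact (h2.map_mod_nat t).symm
    rw [h1]
    exact cl_Q Mo Q hC i ⟨f, (hat _).2 ⟨t % 4, Nat.mod_lt _ (by omega), rfl⟩, hf⟩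
  have hne : ∀ s t, s < 4 → t < 4 → s ≠ t → v s ≠ v t := fun s t hs ht hst h =>
    hst (hvi s t hs ht h)
  have h40 : v 4 = v 0 := by
    have := hv4 0
    rwa [Nat.zero_add] at this
  have hadj : ∀ t, t < 4 → M.graph.Adj (v t) (v (t + 1)) := by
    intro t ht
    refine ⟨?_, e t, (hinc t).1, (hinc t).2⟩
    rcases Nat.lt_or_ge t 3 with h | h
    · exact hne t (t + 1) ht (by omega) (by omega)
    · have h3 : t = 3 := by omega
      subst h3
      show v 3 ≠ v 4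
      rw [h40]
      exact hne 3 0 (by omega) (by omega) (by omega)
  have h1 : ∀ t, t < 4 → gi (pc Mo Q i (v t)) (pc Mo Q i (v (t + 1))) ≤ 1 := fun t ht =>
    pc_adj Mo Q hC hM hQ i (hQv _) (hQv _) (hadj t ht)
  have g0 := h1 0 (by omega)
  have g1 := h1 1 (by omega)
  have g2 := h1 2 (by omega)
  have g3 := h1 3 (by omega)
  simp only [Nat.zero_add, Nat.reduceAdd, h40] at g0 g1 g2 g3
  obtain ⟨s, hs, rfl⟩ := (hat x).1 hx
  obtain ⟨t, ht, rfl⟩ := (hat y).1 hy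
  exact Coord2_four (f := fun t => pc Mo Q i (v t)) g0 g1 g2 g3 hs ht

include hC in
/-- deep vertices have the coordinates of the centre (`clampf_deep`; `2 (a + b) ≤ l1`, `b ≤ a + 1`) -/
theorem pc_deep (i : Mo.I) {x : M.V} (h : l1 / 8 + 2 ≤ eD Mo Q i x) :
    pc Mo Q i x = (Mo.a i / 2, Mo.b i / 2) := by
  have h1 := hC.len i
  have h2 := Mo.hab i
  have h3 := Mo.hba i
  unfold Mouths.n at h1
  unfold pc
  rw [clampf_deep (by omega), clampf_deep (by omega)]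

include hC in
/-- a vertex of `Q` at distance `eD` from the boundary cycle -/
theorem eD_near (hM : M.IsSphere) (hQ : ConnOn M.graph Q) (i : Mo.I) {x : M.V} (hx : x ∈ Q) :
    ∃ t < Mo.n i, Near M.graph Q (eD Mo Q i x) x (Mo.gv i t) := by
  obtain ⟨hr, -, -⟩ := reach Mo Q hC hM hQ i hx
  obtain ⟨l, ⟨t, ht, rfl⟩, hl⟩ := sdist_near _ hr
  exact ⟨t, ht, hl⟩

end Pool.Agent.H.MP_c8cc4c_co
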