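import Mathlib
import Pool.Agent.H.MP_c8cc4c_co.R.Coord2
import Pool.Agent.H.MP_c8cc4c_co.G.Raw
import Pool.Agent.H.MP_c8cc4c_co.G.GlueN

/-! # MP_c8cc4c_co, part R, file 4: the map `Φ`, excursions, real walks -/

open scoped Classical
open Finset

noncomputable section

namespace Pool.Agent.H.MP_c8cc4c_co

variable {M : PC} (Mo : Mouths M) (Q : Set M.V)

/-- a disc whose interior contains the vertex `x` which is not real -/
theorem exists_disc {x : M.V} (hx : x ∉ Mo.Real) : ∃ i, x ∈ M.intr (Mo.c i) := by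
  by_contra hcon
  push Not at hcon
  exact hx hcon

/-- the map `Φ` from `M` to the glued complex -/
def Phi (hM : M.IsSphere) (x : M.V) : (glue M Mo).V :=
  if h : x ∈ Mo.Real then ⟨Sum.inl x, h⟩
  else ⟨Mo.gp (exists_disc Mo h).choose (pc Mo Q (exists_disc Mo h).choose x).1
      (pc Mo Q (exists_disc Mo h).choose x).2, gp_ok Mo hM _ _ _⟩

theorem Phi_real (hM : M.IsSphere) {x : M.V} (hx : x ∈ Mo.Real) :
    (Phi Mo Q hM x).1 = Sum.inl x := by
  unfold Phi
  rw [dif_pos hx]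

variable {l1 : ℕ} (hC : CutOut M Q l1 Mo)

include hC in
/-- `Φ` on the closed disc `i` (`pc_bd`, `gp_bd`, `intr_disj`) -/
theorem Phi_cl (hM : M.IsSphere) (hQ : ConnOn M.graph Q) (i : Mo.I) {x : M.V}
    (hx : x ∈ cl Mo i) : (Phi Mo Q hM x).1 = Mo.gp i (pc Mo Q i x).1 (pc Mo Q i x).2 := by
  have hx' := (mem_cl Mo hM i x).1 hx
  by_cases h : x ∈ Mo.Real
  · rw [Phi_real Mo Q hM h]
    rcases hx' with h1 | ⟨t, ht, rfl⟩
    · exact absurd h1 (h i)
    · rw [pc_bd Mo Q hC hM hQ i ht]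
      exact (gp_bd Mo i ht).symm
  · have hj : (exists_disc Mo h).choose = i := by
      rcases hx' with h1 | ⟨t, ht, rfl⟩
      · exact intr_disj Mo hM (exists_disc Mo h).choose_spec h1
      · exact absurd (gv_real Mo hM i t) h
    unfold Phi
    rw [dif_neg h]
    show Mo.gp _ _ _ = _
    rw [hj]

include hC in
theorem Phi_adj_cl (hM : M.IsSphere) (hQ : ConnOn M.graph Q) (i : Mo.I) {x y : M.V}
    (hx : x ∈ cl Mo i) (hy : y ∈ cl Mo i) (h : M.graph.Adj x y) :
    Near (glue M Mo).graph Set.univ 2 (Phi Mo Q hM x) (Phi Mo Q hM y) := by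
  have h1 := pc_adj Mo Q hC hM hQ i (cl_Q Mo Q hC i hx) (cl_Q Mo Q hC i hy) h
  have h2 := pc_le Mo Q i x
  have h3 := pc_le Mo Q i y
  have h4 := glue_near_grid Mo hM h2.1 h2.2 h3.1 h3.2 (Phi_cl Mo Q hC hM hQ i hx)
    (Phi_cl Mo Q hC hM hQ i hy)
  refine near_mono h4 ?_ (Set.subset_univ _)
  unfold gi at h1
  unfold gd
  simp only []
  omega

include hC in
/-- adjacent vertices go to vertices at distance at most two (`glue_adj_real`, `adj_intr`, `pc_adj`,
`glue_near_grid`) -/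
theorem Phi_adj (hM : M.IsSphere) (hQ : ConnOn M.graph Q) {x y : M.V} (h : M.graph.Adj x y) :
    Near (glue M Mo).graph Set.univ 2 (Phi Mo Q hM x) (Phi Mo Q hM y) := by
  by_cases hx : x ∈ Mo.Real
  · by_cases hy : y ∈ Mo.Real
    · exact near_mono (near_adj (Set.mem_univ _) (Set.mem_univ _)
        (glue_adj_real Mo hM (Phi_real Mo Q hM hx) (Phi_real Mo Q hM hy) h)) (by omega) subset_rfl
    · obtain ⟨i, hi⟩ := exists_disc Mo hy
      have h1 : x ∈ cl Mo i := by
        rw [mem_cl Mo hM]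
        exact adj_intr Mo hM i hi h.symm
      exact Phi_adj_cl Mo Q hC hM hQ i h1 ((mem_cl Mo hM i y).2 (Or.inl hi)) h
  · obtain ⟨i, hi⟩ := exists_disc Mo hx
    have h1 : y ∈ cl Mo i := by
      rw [mem_cl Mo hM]
      exact adj_intr Mo hM i hi h
    exact Phi_adj_cl Mo Q hC hM hQ i ((mem_cl Mo hM i x).2 (Or.inl hi)) h1 h

/-- the vertices allowed for real walks -/
def goodV (hM : M.IsSphere) (l1 : ℕ) (Z : Set (glue M Mo).V) : Set M.V :=
  {z | (∃ w ∈ Z, Near (glue M Mo).graph Set.univ 100 (Phi Mo Q hM z) w) ∧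
    (z ∈ Mo.Real ∨ ∃ i t, z ∈ M.intr (Mo.c i) ∧ Near M.graph Set.univ (l1 / 8 + 1) z (Mo.gv i t))}

theorem Phi_gv_adj (hM : M.IsSphere) (i : Mo.I) (t : ℕ) :
    M.graph.Adj (Mo.gv i t) (Mo.gv i (t + 1)) :=
  inc_adj hM (Mo.ge_inc i t).1 (Mo.ge_inc i t).2 (gv_succ_ne Mo i t)

theorem Phi_gv_near (hM : M.IsSphere) (i : Mo.I) (u k : ℕ) :
    Near (glue M Mo).graph Set.univ k (Phi Mo Q hM (Mo.gv i u)) (Phi Mo Q hM (Mo.gv i (u + k))) := by
  induction k with
  | zero => exact near_refl (Set.mem_univ _)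
  | succ k ih =>
    refine near_trans ih (near_adj (Set.mem_univ _) (Set.mem_univ _) ?_)
    exact glue_adj_real Mo hM (Phi_real Mo Q hM (gv_real Mo hM i _))
      (Phi_real Mo Q hM (gv_real Mo hM i _)) (Phi_gv_adj Mo hM i _)

theorem Phi_arc (hM : M.IsSphere) (Z : Set (glue M Mo).V) (i : Mo.I) (u k : ℕ)
    (h : ∀ j ≤ k, Mo.gv i (u + j) ∈ goodV Mo Q hM l1 Z) :
    Near M.graph (goodV Mo Q hM l1 Z) k (Mo.gv i u) (Mo.gv i (u + k)) := by
  induction k with
  | zero => exact near_refl (h 0 le_rfl)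
  | succ k ih =>
    exact near_trans (ih fun j hj => h j (by omega)) (near_adj (h k (by omega))
      (h (k + 1) le_rfl) (Phi_gv_adj Mo hM i _))

theorem Phi_good (hM : M.IsSphere) {Z : Set (glue M Mo).V} (i : Mo.I) (u d : ℕ) (hd : d ≤ 100)
    {w : (glue M Mo).V} (hw : w ∈ Z)
    (h : Near (glue M Mo).graph Set.univ d (Phi Mo Q hM (Mo.gv i u)) w) :
    Mo.gv i u ∈ goodV Mo Q hM l1 Z :=
  ⟨⟨w, hw, near_mono h hd subset_rfl⟩, Or.inl (gv_real Mo hM i u)⟩

include hC in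
/-- Along the boundary cycle: if all points of the mouth are within grid distance `100` of `w ∈ Z` (`a + b ≤ 100`), then any two vertices of the cycle are joined in
`goodV`. -/
theorem arc_small (hM : M.IsSphere) (hQ : ConnOn M.graph Q) (Z : Set (glue M Mo).V) (i : Mo.I)
    (hn : Mo.n i ≤ 200) {w : (glue M Mo).V} (hw : w ∈ Z) {p q : ℕ} (hp : p ≤ Mo.a i)
    (hq : q ≤ Mo.b i) (hwp : w.1 = Mo.gp i p q) (s t : ℕ) :
    ∃ m, Near M.graph (goodV Mo Q hM l1 Z) m (Mo.gv i s) (Mo.gv i t) := by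
  have hn0 := n_ge Mo i
  have key : ∀ u, Mo.gv i u ∈ goodV Mo Q hM l1 Z := by
    intro u
    have hu : u % Mo.n i < Mo.n i := Nat.mod_lt _ (by omega)
    have h1 : (Phi Mo Q hM (Mo.gv i u)).1 = Mo.gp i (bpt (Mo.a i) (Mo.b i) (u % Mo.n i)).1
        (bpt (Mo.a i) (Mo.b i) (u % Mo.n i)).2 := by
      rw [Phi_real Mo Q hM (gv_real Mo hM i u), gp_bd Mo i hu, ← gv_mod]
    have h2 := Mo.ha i
    have h3 := Mo.hab i
    have h4 := bpt_le (a := Mo.a i) (b := Mo.b i) h2 (by omega) hu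
    have h5 := glue_near_grid Mo hM h4.1 h4.2.1 hp hq h1 hwp
    refine Phi_good Mo Q hM i u _ ?_ hw (near_mono h5 le_rfl (Set.subset_univ _))
    have h6 := gd_le (a := Mo.a i) (b := Mo.b i)
      (p := bpt (Mo.a i) (Mo.b i) (u % Mo.n i)) (q := (p, q)) ⟨h4.1, h4.2.1⟩ ⟨hp, hq⟩
    unfold Mouths.n at hn
    refine h6.trans ?_
    omega
  rcases Nat.le_total s t with h | h
  · have h1 := Phi_arc Mo Q (l1 := l1) hM Z i s (t - s) (fun j _ => key _)
    rw [Nat.add_sub_cancel' h] at h1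
    exact ⟨_, h1⟩
  · have h1 := Phi_arc Mo Q (l1 := l1) hM Z i t (s - t) (fun j _ => key _)
    rw [Nat.add_sub_cancel' h] at h1
    exact ⟨_, near_symm h1⟩

include hC in
/-- Along the boundary cycle: two boundary points at grid distance at most one are joined in `goodV`: by `bpt_dist`
along an arc of length at most three. -/
theorem arc_close (hM : M.IsSphere) (hQ : ConnOn M.graph Q) (Z : Set (glue M Mo).V) (i : Mo.I)
    {s t : ℕ} (hs : s < Mo.n i) (ht : t < Mo.n i)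
    (hst : gd (bpt (Mo.a i) (Mo.b i) s) (bpt (Mo.a i) (Mo.b i) t) ≤ 1)
    {w : (glue M Mo).V} (hw : w ∈ Z) (hws : w.1 = Sum.inl (Mo.gv i s)) :
    ∃ m, Near M.graph (goodV Mo Q hM l1 Z) m (Mo.gv i s) (Mo.gv i t) := by
  have hw' : w = Phi Mo Q hM (Mo.gv i s) :=
    Subtype.ext (hws.trans (Phi_real Mo Q hM (gv_real Mo hM i s)).symm)
  subst hw'
  -- arcs which start or end at `s`
  have hA : ∀ k ≤ 3, Near M.graph (goodV Mo Q hM l1 Z) k (Mo.gv i s) (Mo.gv i (s + k)) := by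
    intro k hk
    apply Phi_arc
    intro j hj
    exact Phi_good Mo Q hM i (s + j) j (by omega) hw (near_symm (Phi_gv_near Mo Q hM i s j))
  have hB : ∀ u k, k ≤ 3 → Mo.gv i (u + k) = Mo.gv i s →
      Near M.graph (goodV Mo Q hM l1 Z) k (Mo.gv i u) (Mo.gv i (u + k)) := by
    intro u k hk hus
    apply Phi_arc
    intro j hj
    refine Phi_good Mo Q hM i (u + j) (k - j) (by omega) hw ?_
    have h1 := Phi_gv_near Mo Q hM i (u + j) (k - j)
    rw [show u + j + (k - j) = u + k by omega, hus] at h1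
    exact h1
  have h1 := Mo.ha i
  have h2 := Mo.hab i
  have h3 := Mo.hba i
  have hper : ∀ u, Mo.gv i (u + Mo.n i) = Mo.gv i u := fun u => Mo.gv_per i u
  have hnn : Mo.n i = 2 * (Mo.a i + Mo.b i) := rfl
  rcases Nat.le_total s t with h | h
  · rcases bpt_dist h1 h2 h3 h (by omega : t < 2 * (Mo.a i + Mo.b i)) with h4 | h4
    · have h5 := hA (t - s) (by omega)
      rw [Nat.add_sub_cancel' h] at h5
      exact ⟨_, h5⟩
    · have h6 : t + (Mo.n i - (t - s)) = s + Mo.n i := by omega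
      have h5 := hB t (Mo.n i - (t - s)) (by omega) (by rw [h6, hper])
      rw [h6, hper] at h5
      exact ⟨_, near_symm h5⟩
  · rw [gd_comm] at hst
    rcases bpt_dist h1 h2 h3 h (by omega : s < 2 * (Mo.a i + Mo.b i)) with h4 | h4
    · have h5 := hB t (s - t) (by omega) (by rw [Nat.add_sub_cancel' h])
      rw [Nat.add_sub_cancel' h] at h5
      exact ⟨_, near_symm h5⟩
    · have h6 : s + (Mo.n i - (s - t)) = t + Mo.n i := by omega
      have h5 := hA (Mo.n i - (s - t)) (by omega)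
      rw [h6, hper] at h5
      exact ⟨_, h5⟩

end Pool.Agent.H.MP_c8cc4c_co
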