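import Mathlib
import Pool.Agent.H.MP_c8cc4c_co.R.Clamp
import Pool.Agent.H.MP_c8cc4c_co.B.Conn

/-! # MP_c8cc4c_co, part R, file 1b: rerouting around the centre -/

open scoped Classical
open Finset

noncomputable section

namespace Pool.Agent.H.MP_c8cc4c_co

/-- Rerouting around the centre `z`: let `p 0, ..., p j` be a grid walk whose ends have `l^∞` distance at least `12`
from `z`. There is a set `A0` of grid points, such that `p 0`, `p j` are joined in `A0`, every point of `A0` has `l^∞` distance at least `12`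
from `z`, and every point of `A0` is one of the `p k` or is in the ring of radius `12`, in which case some
`p k` has `l^∞` distance at most `12` from `z`. (`A0` = the points `p k` at distance at least `12`, together with the ring
if some `p k` has distance at most `12`. By induction on `k`: if `p k` has distance at least `12`, it is joined to `p 0` in `A0`; if `p k` has
distance at most `12` the ring is joined to `p 0` in `A0`.) -/
theorem reroute {z : ℕ × ℕ} (h1 : 12 ≤ z.1) (h2 : 12 ≤ z.2) (p : ℕ → ℕ × ℕ) (j : ℕ)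
    (hp : ∀ k < j, gd (p k) (p (k + 1)) = 1) (h0 : 12 ≤ gi (p 0) z) (hj : 12 ≤ gi (p j) z) :
    ∃ A0 : Set (ℕ × ℕ), (∃ n, Near gridG A0 n (p 0) (p j)) ∧
      (∀ q ∈ A0, 12 ≤ gi q z ∧ ((∃ k ≤ j, q = p k) ∨ (gi q z = 12 ∧ ∃ k ≤ j, gi (p k) z ≤ 12))) := by
  set A0 : Set (ℕ × ℕ) := {q | 12 ≤ gi q z ∧
    ((∃ k ≤ j, q = p k) ∨ (gi q z = 12 ∧ ∃ k ≤ j, gi (p k) z ≤ 12))} with hA0
  refine ⟨A0, ?_, fun q hq => hq⟩
  have hring : ∀ k ≤ j, gi (p k) z ≤ 12 → ∀ q q', gi q z = 12 → gi q' z = 12 →
      ∃ n, Near gridG A0 n q q' := by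
    intro k hk hpk q q' hq hq'
    obtain ⟨n, hn⟩ := (ring_conn h1 h2 (by norm_num)).2 q hq q' hq'
    refine ⟨n, near_mono hn (le_refl _) ?_⟩
    intro r hr
    have hr' : gi r z = 12 := hr
    exact ⟨by omega, Or.inr ⟨hr', k, hk, hpk⟩⟩
  have hmem : ∀ k ≤ j, 12 ≤ gi (p k) z → p k ∈ A0 := fun k hk h => ⟨h, Or.inl ⟨k, hk, rfl⟩⟩
  have key : ∀ k ≤ j, (12 ≤ gi (p k) z → ∃ n, Near gridG A0 n (p 0) (p k)) ∧
      (gi (p k) z ≤ 12 → ∀ q, gi q z = 12 → ∃ n, Near gridG A0 n (p 0) q) := by
    intro k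
    induction k with
    | zero =>
      intro hk
      refine ⟨fun _ => ⟨0, near_refl (hmem 0 hk h0)⟩, ?_⟩
      intro h q hq
      exact hring 0 hk h (p 0) q (by omega) hq
    | succ k ih =>
      intro hk
      obtain ⟨i1, i2⟩ := ih (by omega)
      have hstep := hp k (by omega)
      have s1 := gi_step (z := z) hstep
      have s2 := gi_step (p := p (k + 1)) (q := p k) (z := z) (by rw [gd_comm]; exact hstep)
      constructor
      · intro h
        by_cases h3 : 12 ≤ gi (p k) z
        · obtain ⟨n, hn⟩ := i1 h3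
          exact ⟨n + 1, near_trans hn (near_adj (hmem k (by omega) h3) (hmem (k + 1) hk h) hstep)⟩
        · exact i2 (by omega) (p (k + 1)) (by omega)
      · intro h q hq
        by_cases h3 : gi (p k) z ≤ 12
        · exact i2 h3 q hq
        · have h4 : gi (p (k + 1)) z = 12 := by omega
          obtain ⟨n, hn⟩ := i1 (by omega)
          obtain ⟨m, hm⟩ := hring (k + 1) hk h (p (k + 1)) q h4 hq
          exact ⟨n + 1 + m, near_trans (near_trans hn (near_adj (hmem k (by omega) (by omega))
            (hmem (k + 1) hk (by omega)) hstep)) hm⟩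
  exact (key j (le_refl _)).1 hj

/-- A simple path in `A0` as a function. -/
theorem simple_path {A0 : Set (ℕ × ℕ)} {n : ℕ} {u v : ℕ × ℕ} (h : Near gridG A0 n u v) :
    ∃ (L : ℕ) (q : ℕ → ℕ × ℕ), q 0 = u ∧ q L = v ∧ (∀ i < L, gd (q i) (q (i + 1)) = 1) ∧
      (∀ i j, i ≤ L → j ≤ L → q i = q j → i = j) ∧ ∀ i ≤ L, q i ∈ A0 := by
  obtain ⟨p, -, hp⟩ := h
  refine ⟨p.bypass.length, fun i => p.bypass.getVert i, ?_, ?_, ?_, ?_, ?_⟩
  · exact SimpleGraph.Walk.getVert_zero _
  · exact SimpleGraph.Walk.getVert_length _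
  · intro i hi
    exact p.bypass.adj_getVert_succ hi
  · intro i j hi hj hij
    exact p.bypass_isPath.getVert_injOn hi hj hij
  · intro i hi
    exact hp _ (p.support_bypass_subset (p.bypass.getVert_mem_support i))

/-- Crosscut from an excursion: `a ≥ 50`; `p 0 = bpt s`, `p j = bpt t`, the other `p k` are interior; the two
boundary points have grid distance at least `2`. The crosscut avoids the `l^∞` ball of radius `11` around the centre and each of its
points is within grid distance `48` of some `p k`. (`reroute` with `z = (a/2, b/2)`, `simple_path`; the inner points of the simple path are different from its ends, so they are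
interior: they are some `p k`, `0 < k < j`, or in the ring. Boundary points have `l^∞` distance at least `25`
from the centre.) -/
theorem exc_crosscut {a b s t : ℕ} (ha : 50 ≤ a) (hab : a ≤ b) (hba : b ≤ a + 1)
    (hs : s < 2 * (a + b)) (ht : t < 2 * (a + b)) (p : ℕ → ℕ × ℕ) (j : ℕ) (h0 : p 0 = bpt a b s)
    (hj : p j = bpt a b t) (hp : ∀ k < j, gd (p k) (p (k + 1)) = 1)
    (hi : ∀ k, 0 < k → k < j → 0 < (p k).1 ∧ (p k).1 < a ∧ 0 < (p k).2 ∧ (p k).2 < b)
    (hst : 2 ≤ gd (bpt a b s) (bpt a b t)) :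
    ∃ (L : ℕ) (q : ℕ → ℕ × ℕ), Crosscut a b s t L q ∧
      ∀ i ≤ L, 12 ≤ gi (q i) (a / 2, b / 2) ∧ ∃ k ≤ j, gd (q i) (p k) ≤ 48 := by
  have hbd : ∀ u < 2 * (a + b), 12 ≤ gi (bpt a b u) (a / 2, b / 2) := by
    intro u hu
    have h := bpt_le (a := a) (b := b) (by omega) (by omega) hu
    unfold onBd at h
    unfold gi
    simp only
    omega
  obtain ⟨A0, ⟨n, hn⟩, hA0⟩ := reroute (z := (a / 2, b / 2)) (by simp only; omega)
    (by simp only; omega) p j hp (by rw [h0]; exact hbd s hs) (by rw [hj]; exact hbd t ht)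
  obtain ⟨L, q, hq0, hqL, hadj, hinj, hmem⟩ := simple_path hn
  have hdist : ∀ i ≤ L, gd (q 0) (q i) ≤ i := by
    intro i
    induction i with
    | zero =>
      intro _
      simp [gd]
    | succ i ih =>
      intro hi
      have h3 := ih (by omega)
      have h4 := hadj i (by omega)
      have h5 := gd_tri (q 0) (q i) (q (i + 1))
      omega
  have hL : 2 ≤ L := by
    have h3 := hdist L (le_refl _)
    rw [hq0, hqL, h0, hj] at h3
    omega
  refine ⟨L, q, ⟨hL, hq0.trans h0, hqL.trans hj, hadj, hinj, ?_⟩, ?_⟩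
  · intro i hi0 hiL
    obtain ⟨h12, ⟨k, hk, hqk⟩ | ⟨hr, -⟩⟩ := hA0 (q i) (hmem i (by omega))
    · have hk0 : k ≠ 0 := by
        rintro rfl
        have := hinj i 0 (by omega) (by omega) (hqk.trans hq0.symm)
        omega
      have hkj : k ≠ j := by
        rintro rfl
        have := hinj i L (by omega) (by omega) (hqk.trans hqL.symm)
        omega
      rw [hqk]
      exact hi k (by omega) (by omega)
    · unfold gi at hr
      simp only at hr
      omega
  · intro i hiL
    obtain ⟨h12, ⟨k, hk, hqk⟩ | ⟨hr, k, hk, hpk⟩⟩ := hA0 (q i) (hmem i hiL)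
    · refine ⟨h12, k, hk, ?_⟩
      rw [hqk]
      simp [gd]
    · refine ⟨h12, k, hk, ?_⟩
      unfold gi at hr hpk
      unfold gd
      simp only at hr hpk
      omega

end Pool.Agent.H.MP_c8cc4c_co
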