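import Mathlib
import Pool.Agent.H.MP_c8cc4c_co.R.Phi
import Pool.Agent.H.MP_c8cc4c_co.R.Reroute
import Pool.Agent.H.MP_c8cc4c_co.R.HL2
import Pool.Agent.H.MP_c8cc4c_co.G.Grid3

/-! # MP_c8cc4c_co, part R, file 5: excursions -/

open scoped Classical
open Finset

noncomputable section

namespace Pool.Agent.H.MP_c8cc4c_co

variable {M : PC} (Mo : Mouths M) (Q : Set M.V)

variable {l1 : ℕ} (hC : CutOut M Q l1 Mo)

include hC in
/-- Excursions in a large mouth (`n i > 200`, so `a ≥ 50`), boundary points at grid distance at least two, `s < t`. Let `q` be the crosscut of `exc_crosscut` and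
`A` = set of the vertices `x` of the closed disc with `gi (pc x) (q k) ≤ 4` for some `k`. If `gv i s` and
`gv i t` were not joined in `A`, `vertex_chain` gives `y 0, ..., y m`; the points `pc (y j)` have steps of `l^∞` length at most `2` (`pc_face`), start at `bpt u` and
end at `bpt v` (`pc_bd`), so by `grid_cross_jump` some `y j` is in `A`, a contradiction. So they are joined in `A`; and `A` is contained in
`goodV`: for `x ∈ A` there is `k` with `gd (pc x) (p k) ≤ 8 + 48`; if `eD x ≥ l1/8 + 2` then `pc x` is the centre (`pc_deep`), but all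
`q k` have `l^∞` distance at least `12` from it. -/
theorem exc_large (hM : M.IsSphere) (hq : M.Quad) (hQ : ConnOn M.graph Q)
    (Z : Set (glue M Mo).V) (i : Mo.I) (hn : 200 < Mo.n i) {s t : ℕ} (hst : s < t)
    (ht : t < Mo.n i) (hd : 2 ≤ gd (bpt (Mo.a i) (Mo.b i) s) (bpt (Mo.a i) (Mo.b i) t))
    (p : ℕ → ℕ × ℕ) (j : ℕ)
    (h0 : (p 0 = bpt (Mo.a i) (Mo.b i) s ∧ p j = bpt (Mo.a i) (Mo.b i) t) ∨
      (p 0 = bpt (Mo.a i) (Mo.b i) t ∧ p j = bpt (Mo.a i) (Mo.b i) s))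
    (hp : ∀ k < j, gd (p k) (p (k + 1)) = 1)
    (hi : ∀ k, 0 < k → k < j →
      0 < (p k).1 ∧ (p k).1 < Mo.a i ∧ 0 < (p k).2 ∧ (p k).2 < Mo.b i)
    (hZ : ∀ k ≤ j, ∃ w ∈ Z, w.1 = Mo.gp i (p k).1 (p k).2) :
    ∃ m, Near M.graph (goodV Mo Q hM l1 Z) m (Mo.gv i s) (Mo.gv i t) := by
  classical
  have hn2 : Mo.n i = 2 * (Mo.a i + Mo.b i) := rfl
  have hab := Mo.hab i
  have hba := Mo.hba i
  have ha50 : 50 ≤ Mo.a i := by omega
  have ha1 : 1 ≤ Mo.a i := Mo.ha i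
  have hb1 : 1 ≤ Mo.b i := by omega
  have hsn : s < Mo.n i := hst.trans ht
  -- orient the walk
  obtain ⟨p', hp0, hpj, hpa, hpi, hpZ⟩ : ∃ p' : ℕ → ℕ × ℕ,
      p' 0 = bpt (Mo.a i) (Mo.b i) s ∧ p' j = bpt (Mo.a i) (Mo.b i) t ∧
      (∀ k < j, gd (p' k) (p' (k + 1)) = 1) ∧
      (∀ k, 0 < k → k < j →
        0 < (p' k).1 ∧ (p' k).1 < Mo.a i ∧ 0 < (p' k).2 ∧ (p' k).2 < Mo.b i) ∧
      ∀ k ≤ j, ∃ w ∈ Z, w.1 = Mo.gp i (p' k).1 (p' k).2 := by
    rcases h0 with ⟨e1, e2⟩ | ⟨e1, e2⟩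
    · exact ⟨p, e1, e2, hp, hi, hZ⟩
    · refine ⟨fun k => p (j - k), ?_, ?_, ?_, ?_, ?_⟩
      · change p (j - 0) = _
        rw [Nat.sub_zero]
        exact e2
      · change p (j - j) = _
        rw [Nat.sub_self]
        exact e1
      · intro k hk
        change gd (p (j - k)) (p (j - (k + 1))) = 1
        rw [gd_comm]
        have h1 := hp (j - (k + 1)) (by omega)
        have h2 : j - (k + 1) + 1 = j - k := by omega
        rwa [h2] at h1
      · intro k hk hkj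
        exact hi (j - k) (by omega) (by omega)
      · intro k hk
        exact hZ (j - k) (by omega)
  have hple : ∀ k ≤ j, (p' k).1 ≤ Mo.a i ∧ (p' k).2 ≤ Mo.b i := by
    intro k hk
    rcases Nat.eq_zero_or_pos k with h | h
    · subst h
      rw [hp0]
      have := bpt_le ha1 hb1 (hn2 ▸ hsn)
      exact ⟨this.1, this.2.1⟩
    · rcases Nat.eq_or_lt_of_le hk with h' | h'
      · subst h'
        rw [hpj]
        have := bpt_le ha1 hb1 (hn2 ▸ ht)
        exact ⟨this.1, this.2.1⟩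
      · have := hpi k h h'
        exact ⟨this.2.1.le, this.2.2.2.le⟩
  have hq0 := hq
  obtain ⟨L, q, hcr, hq⟩ := exc_crosscut ha50 hab hba (hn2 ▸ hsn) (hn2 ▸ ht) p' j hp0 hpj hpa
    hpi hd
  -- the set A
  let A : Set M.V := {x | x ∈ cl Mo i ∧ ∃ k ≤ L, gi (pc Mo Q i x) (q k) ≤ 4}
  have hgi : ∀ x y : ℕ × ℕ, gd x y ≤ 2 * gi x y := by
    intro x y
    unfold gd gi
    omega
  have hA : A ⊆ goodV Mo Q hM l1 Z := by
    rintro x ⟨hx, k, hk, hxk⟩
    obtain ⟨h12, k', hk', hqk⟩ := hq k hk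
    obtain ⟨w, hw, hwp⟩ := hpZ k' hk'
    have hle := pc_le Mo Q i x
    have hle' := hple k' hk'
    constructor
    · refine ⟨w, hw, ?_⟩
      have h1 := glue_near_grid Mo hM hle.1 hle.2 hle'.1 hle'.2
        (Phi_cl Mo Q hC hM hQ i hx) hwp
      refine near_mono h1 ?_ (Set.subset_univ _)
      have h2 := gd_tri (pc Mo Q i x) (q k) (p' k')
      have h3 := hgi (pc Mo Q i x) (q k)
      change gd (pc Mo Q i x) (p' k') ≤ 100
      omega
    · rcases (mem_cl Mo hM i x).1 hx with h | ⟨t', -, h⟩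
      · right
        have he : eD Mo Q i x ≤ l1 / 8 + 1 := by
          by_contra hcon
          have h1 := pc_deep Mo Q hC i (x := x) (by omega)
          rw [h1] at hxk
          have h2 : gi (Mo.a i / 2, Mo.b i / 2) (q k) = gi (q k) (Mo.a i / 2, Mo.b i / 2) := by
            unfold gi
            omega
          omega
        obtain ⟨t', ht', hnear⟩ := eD_near Mo Q hC hM hQ i (cl_Q Mo Q hC i hx)
        exact ⟨i, t', h, near_mono hnear he (Set.subset_univ _)⟩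
      · left
        rw [← h]
        exact gv_real Mo hM i t'
  have hgvcl : ∀ u < Mo.n i, Mo.gv i u ∈ cl Mo i := fun u hu =>
    (mem_cl Mo hM i _).2 (Or.inr ⟨u, hu, rfl⟩)
  have hgi0 : ∀ x : ℕ × ℕ, gi x x = 0 := by
    intro x
    unfold gi
    omega
  have hsA : Mo.gv i s ∈ A := by
    refine ⟨hgvcl s hsn, 0, Nat.zero_le _, ?_⟩
    rw [pc_bd Mo Q hC hM hQ i hsn, hcr.h0, hgi0]
    omega
  have htA : Mo.gv i t ∈ A := by
    refine ⟨hgvcl t ht, L, le_rfl, ?_⟩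
    rw [pc_bd Mo Q hC hM hQ i ht, hcr.h1, hgi0]
    omega
  by_contra hcon
  push Not at hcon
  have hnA : ∀ n, ¬ Near M.graph A n (Mo.gv i s) (Mo.gv i t) := fun n hn =>
    hcon n (near_mono hn le_rfl hA)
  obtain ⟨m, y, hy, hyf, ⟨u, hsu, hut, hy0⟩, v, hv, hym⟩ :=
    vertex_chain Mo hM i A hst ht hsA htA hnA
  have hvn : v < Mo.n i := by
    rcases hv with h | h
    · omega
    · exact h.2
  obtain ⟨i', hi', j', hj', hfin⟩ := grid_cross_jump hcr ha1 hb1 hst (hn2 ▸ ht)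
    (fun k => pc Mo Q i (y k)) m (fun k _ => pc_le Mo Q i (y k))
    (fun k hk => by
      obtain ⟨f, hf, h1, h2⟩ := hyf k hk
      exact pc_face Mo Q hC hM hq0 hQ i hf h1 h2)
    hsu hut (hn2 ▸ hv) (by
      change pc Mo Q i (y 0) = _
      rw [hy0]
      exact pc_bd Mo Q hC hM hQ i (by omega))
    (by
      change pc Mo Q i (y m) = _
      rw [hym]
      exact pc_bd Mo Q hC hM hQ i hvn)
  refine (hy j' hj').2 ⟨(hy j' hj').1, i', hi', ?_⟩
  have h2 : gi (pc Mo Q i (y j')) (q i') = gi (q i') (pc Mo Q i (y j')) := by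
    unfold gi
    omega
  rw [h2]
  exact hfin.trans (by omega)

include hC in
/-- Excursions in general (`arc_small`, `arc_close`, `exc_large`). -/
theorem excursion (hM : M.IsSphere) (hq : M.Quad) (hQ : ConnOn M.graph Q)
    (Z : Set (glue M Mo).V) (i : Mo.I) {s t : ℕ} (hs : s < Mo.n i)
    (ht : t < Mo.n i) (p : ℕ → ℕ × ℕ) (j : ℕ)
    (h0 : p 0 = bpt (Mo.a i) (Mo.b i) s) (hj : p j = bpt (Mo.a i) (Mo.b i) t)
    (hp : ∀ k < j, gd (p k) (p (k + 1)) = 1)
    (hi : ∀ k, 0 < k → k < j →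
      0 < (p k).1 ∧ (p k).1 < Mo.a i ∧ 0 < (p k).2 ∧ (p k).2 < Mo.b i)
    (hZ : ∀ k ≤ j, ∃ w ∈ Z, w.1 = Mo.gp i (p k).1 (p k).2) :
    ∃ m, Near M.graph (goodV Mo Q hM l1 Z) m (Mo.gv i s) (Mo.gv i t) := by
  have hn2 : Mo.n i = 2 * (Mo.a i + Mo.b i) := rfl
  have hab := Mo.hab i
  have ha1 : 1 ≤ Mo.a i := Mo.ha i
  have hb1 : 1 ≤ Mo.b i := by omega
  obtain ⟨w, hw, hwp⟩ := hZ 0 (Nat.zero_le _)
  rw [h0] at hwp
  rcases Nat.lt_or_ge 200 (Mo.n i) with hn | hn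
  · rcases Nat.lt_or_ge (gd (bpt (Mo.a i) (Mo.b i) s) (bpt (Mo.a i) (Mo.b i) t)) 2 with hd | hd
    · refine arc_close Mo Q hC hM hQ Z i hs ht (by omega) hw ?_
      rw [hwp, gp_bd Mo i hs]
    · rcases lt_trichotomy s t with hst | hst | hst
      · exact exc_large Mo Q hC hM hq hQ Z i hn hst ht hd p j (Or.inl ⟨h0, hj⟩) hp hi hZ
      · exfalso
        subst hst
        unfold gd at hd
        omega
      · obtain ⟨m, hm⟩ := exc_large Mo Q hC hM hq hQ Z i hn hst hs (by rwa [gd_comm]) p j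
          (Or.inr ⟨h0, hj⟩) hp hi hZ
        exact ⟨m, near_symm hm⟩
  · have h1 := bpt_le ha1 hb1 (hn2 ▸ hs)
    exact arc_small Mo Q hC hM hQ Z i hn hw h1.1 h1.2.1 hwp s t

end Pool.Agent.H.MP_c8cc4c_co
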