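import Mathlib
import Pool.Agent.H.MP_c8cc4c_co.R.Exc

/-! # MP_c8cc4c_co, part R, file 6: real walks -/

open scoped Classical
open Finset

noncomputable section

namespace Pool.Agent.H.MP_c8cc4c_co

variable {M : PC} (Mo : Mouths M)

/-- Statement about the end `v` of a walk which starts at the real vertex `x`: if `v` is real then `P x v`,
if `v` is an interior grid point then it is reached by an excursion. -/
def Main_I (Z : Set (glue M Mo).V) (P : M.V → M.V → Prop) (x : M.V) (v : (glue M Mo).V) : Prop :=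
  (∀ y, v.1 = Sum.inl y → P x y) ∧
  ∀ (i : Mo.I) (a b : ℕ), v.1 = Sum.inr (i, a, b) → ∃ s < Mo.n i, ∃ (p : ℕ → ℕ × ℕ) (j : ℕ),
    p 0 = bpt (Mo.a i) (Mo.b i) s ∧ p j = (a, b) ∧
      (∀ k < j, gd (p k) (p (k + 1)) = 1) ∧
      (∀ k, 0 < k → k ≤ j →
        0 < (p k).1 ∧ (p k).1 < Mo.a i ∧ 0 < (p k).2 ∧ (p k).2 < Mo.b i) ∧
      (∀ k ≤ j, ∃ w ∈ Z, w.1 = Mo.gp i (p k).1 (p k).2) ∧ P x (Mo.gv i s)

/-- extension of a sequence of grid points by one point -/
theorem Main_ext {p : ℕ → ℕ × ℕ} {j : ℕ} {a b : ℕ} {q : ℕ × ℕ} (hj : p j = (a, b))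
    (hp : ∀ k < j, gd (p k) (p (k + 1)) = 1) (hq : gd (a, b) q = 1) :
    ∃ p' : ℕ → ℕ × ℕ, (∀ k ≤ j, p' k = p k) ∧ p' (j + 1) = q ∧
      ∀ k < j + 1, gd (p' k) (p' (k + 1)) = 1 := by
  refine ⟨fun k => if k ≤ j then p k else q, ?_, ?_, ?_⟩
  · intro k hk
    simp only [if_pos hk]
  · simp only [if_neg (show ¬ j + 1 ≤ j by omega)]
  · intro k hk
    rcases Nat.lt_or_ge k j with h | h
    · simp only [if_pos (show k ≤ j by omega), if_pos (show k + 1 ≤ j by omega)]
      exact hp k h
    · have h1 : k = j := by omega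
      subst h1
      simp only [if_pos le_rfl, if_neg (show ¬ k + 1 ≤ k by omega)]
      rw [hj]
      exact hq

/-- one step -/
theorem Main_step (hM : M.IsSphere) (Z : Set (glue M Mo).V) (P : M.V → M.V → Prop)
    (htrans : ∀ x y z, P x y → P y z → P x z)
    (hadj : ∀ x y (u v : (glue M Mo).V), u.1 = Sum.inl x → v.1 = Sum.inl y → u ∈ Z → v ∈ Z →
      M.graph.Adj x y → P x y)
    (hexc : ∀ (i : Mo.I) (s t : ℕ), s < Mo.n i → t < Mo.n i → ∀ (p : ℕ → ℕ × ℕ) (j : ℕ),
      p 0 = bpt (Mo.a i) (Mo.b i) s → p j = bpt (Mo.a i) (Mo.b i) t →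
      (∀ k < j, gd (p k) (p (k + 1)) = 1) →
      (∀ k, 0 < k → k < j →
        0 < (p k).1 ∧ (p k).1 < Mo.a i ∧ 0 < (p k).2 ∧ (p k).2 < Mo.b i) →
      (∀ k ≤ j, ∃ w ∈ Z, w.1 = Mo.gp i (p k).1 (p k).2) → P (Mo.gv i s) (Mo.gv i t))
    {x : M.V} {u v : (glue M Mo).V} (hu : u ∈ Z) (hv : v ∈ Z)
    (hI : Main_I Mo Z P x u) (h : (glue M Mo).graph.Adj u v) : Main_I Mo Z P x v := by
  rcases glue_adj Mo hM h with ⟨x', y', h1, h2, h3⟩ | ⟨i, a, b, a', b', ha, hb, ha', hb', h1, h2, h3⟩
  · refine ⟨?_, ?_⟩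
    · intro y hy
      have h4 : y = y' := Sum.inl.inj (hy.symm.trans h2)
      subst h4
      exact htrans _ _ _ (hI.1 x' h1) (hadj x' y u v h1 h2 hu hv h3)
    · intro i a b hy
      rw [h2] at hy
      simp at hy
  · by_cases hi : 0 < a ∧ a < Mo.a i ∧ 0 < b ∧ b < Mo.b i
    · -- the point before is interior
      rw [gp_int Mo i hi] at h1
      obtain ⟨s, hs, p, j, p0, pj, hp, hpi, hpZ, hP⟩ := hI.2 i a b h1
      obtain ⟨p', e1, e2, e3⟩ := Main_ext (q := (a', b')) pj hp h3
      have hZ' : ∀ k ≤ j + 1, ∃ w ∈ Z, w.1 = Mo.gp i (p' k).1 (p' k).2 := by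
        intro k hk
        rcases Nat.lt_or_ge j k with h4 | h4
        · have h5 : k = j + 1 := by omega
          subst h5
          rw [e2]
          exact ⟨v, hv, h2⟩
        · rw [e1 k h4]
          exact hpZ k h4
      by_cases hi' : 0 < a' ∧ a' < Mo.a i ∧ 0 < b' ∧ b' < Mo.b i
      · have h2' := h2
        rw [gp_int Mo i hi'] at h2'
        refine ⟨?_, ?_⟩
        · intro y hy
          rw [h2'] at hy
          simp at hy
        · intro i1 a1 b1 hy
          rw [h2'] at hy
          simp only [Sum.inr.injEq, Prod.mk.injEq] at hy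
          obtain ⟨rfl, rfl, rfl⟩ := hy
          refine ⟨s, hs, p', j + 1, (e1 0 (by omega)).trans p0, e2, e3, ?_, hZ', hP⟩
          intro k hk0 hk
          rcases Nat.lt_or_ge j k with h4 | h4
          · have h5 : k = j + 1 := by omega
            subst h5
            rw [e2]
            exact hi'
          · rw [e1 k h4]
            exact hpi k hk0 h4
      · have hbd : onBd (Mo.a i) (Mo.b i) a' b' := ⟨ha', hb', hi'⟩
        have h2' := h2
        rw [gp_bd' Mo i hbd] at h2'
        refine ⟨?_, ?_⟩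
        · intro y hy
          have h4 : y = Mo.gv i (bix (Mo.a i) (Mo.b i) a' b') := Sum.inl.inj (hy.symm.trans h2')
          subst h4
          refine htrans _ _ _ hP (hexc i s _ hs (bix_lt (Mo.ha i) (Raw_hb Mo i) hbd) p' (j + 1)
            ((e1 0 (by omega)).trans p0) ?_ e3 ?_ hZ')
          · rw [e2, bpt_bix (Mo.ha i) (Raw_hb Mo i) hbd]
          · intro k hk0 hk
            rw [e1 k (by omega)]
            exact hpi k hk0 (by omega)
        · intro i1 a1 b1 hy
          rw [h2'] at hy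
          simp at hy
    · -- the point before is on the boundary
      have hbd : onBd (Mo.a i) (Mo.b i) a b := ⟨ha, hb, hi⟩
      have h1' := h1
      rw [gp_bd' Mo i hbd] at h1'
      have hs : bix (Mo.a i) (Mo.b i) a b < Mo.n i := bix_lt (Mo.ha i) (Raw_hb Mo i) hbd
      have hP := hI.1 _ h1'
      have hbp := bpt_bix (Mo.ha i) (Raw_hb Mo i) hbd
      obtain ⟨p', e1, e2, e3⟩ := Main_ext (p := fun _ => (a, b)) (j := 0) (q := (a', b')) rfl
        (fun k hk => absurd hk (Nat.not_lt_zero k)) h3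
      have hZ' : ∀ k ≤ 0 + 1, ∃ w ∈ Z, w.1 = Mo.gp i (p' k).1 (p' k).2 := by
        intro k hk
        rcases Nat.lt_or_ge 0 k with h4 | h4
        · have h5 : k = 0 + 1 := by omega
          subst h5
          rw [e2]
          exact ⟨v, hv, h2⟩
        · rw [e1 k h4]
          exact ⟨u, hu, h1⟩
      by_cases hi' : 0 < a' ∧ a' < Mo.a i ∧ 0 < b' ∧ b' < Mo.b i
      · have h2' := h2
        rw [gp_int Mo i hi'] at h2'
        refine ⟨?_, ?_⟩
        · intro y hy
          rw [h2'] at hy
          simp at hy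
        · intro i1 a1 b1 hy
          rw [h2'] at hy
          simp only [Sum.inr.injEq, Prod.mk.injEq] at hy
          obtain ⟨rfl, rfl, rfl⟩ := hy
          refine ⟨_, hs, p', 0 + 1, ?_, e2, e3, ?_, hZ', hP⟩
          · rw [e1 0 le_rfl, hbp]
          · intro k hk0 hk
            have h5 : k = 0 + 1 := by omega
            subst h5
            rw [e2]
            exact hi'
      · have hbd' : onBd (Mo.a i) (Mo.b i) a' b' := ⟨ha', hb', hi'⟩
        have h2' := h2
        rw [gp_bd' Mo i hbd'] at h2'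
        refine ⟨?_, ?_⟩
        · intro y hy
          have h4 : y = Mo.gv i (bix (Mo.a i) (Mo.b i) a' b') := Sum.inl.inj (hy.symm.trans h2')
          subst h4
          refine htrans _ _ _ hP (hexc i _ _ hs (bix_lt (Mo.ha i) (Raw_hb Mo i) hbd') p' (0 + 1)
            ?_ ?_ e3 ?_ hZ')
          · rw [e1 0 le_rfl, hbp]
          · rw [e2, bpt_bix (Mo.ha i) (Raw_hb Mo i) hbd']
          · intro k hk0 hk
            omega
        · intro i1 a1 b1 hy
          rw [h2'] at hy
          simp at hy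

/-- Decomposition of walks of the glued complex: a walk in `Z` between real vertices is real-real steps (adjacent in `M`) and excursions. State `P`: a relation
on real vertices which is reflexive, transitive, holds for steps `x, y ∈ Z` adjacent in `M` and for the ends of excursions in `Z`; then it holds for the
ends of the walk. Proof: strengthen to walks ending at an interior grid point `w` of the mouth `i`: then there are a real vertex `x' = gv i s` with `P x x'` and
grid points `p 0 = bpt s, p 1, ..., p j`, interior for `0 < k ≤ j`, in `Z`, steps of length one, with `w = gp i (p j)`. Induction on the length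
(`near_succ'`), using `glue_adj`: the last step goes from real to real, real to grid, grid to grid (same mouth, as interior grid points of different mouths are different) or grid to
real. -/
theorem walk_decomp (hM : M.IsSphere) (Z : Set (glue M Mo).V) (P : M.V → M.V → Prop)
    (hrefl : ∀ x, P x x) (htrans : ∀ x y z, P x y → P y z → P x z)
    (hadj : ∀ x y (u v : (glue M Mo).V), u.1 = Sum.inl x → v.1 = Sum.inl y → u ∈ Z → v ∈ Z →
      M.graph.Adj x y → P x y)
    (hexc : ∀ (i : Mo.I) (s t : ℕ), s < Mo.n i → t < Mo.n i → ∀ (p : ℕ → ℕ × ℕ) (j : ℕ),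
      p 0 = bpt (Mo.a i) (Mo.b i) s → p j = bpt (Mo.a i) (Mo.b i) t →
      (∀ k < j, gd (p k) (p (k + 1)) = 1) →
      (∀ k, 0 < k → k < j →
        0 < (p k).1 ∧ (p k).1 < Mo.a i ∧ 0 < (p k).2 ∧ (p k).2 < Mo.b i) →
      (∀ k ≤ j, ∃ w ∈ Z, w.1 = Mo.gp i (p k).1 (p k).2) → P (Mo.gv i s) (Mo.gv i t))
    {x y : M.V} {u v : (glue M Mo).V} (hu : u.1 = Sum.inl x) (hv : v.1 = Sum.inl y) {n : ℕ}
    (h : Near (glue M Mo).graph Z n u v) : P x y := by
  have key : ∀ (n : ℕ) (v : (glue M Mo).V), Near (glue M Mo).graph Z n u v →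
      Main_I Mo Z P x v := by
    intro n
    induction n with
    | zero =>
      intro v hv
      obtain ⟨h1, h2⟩ := near_zero.1 hv
      subst h1
      refine ⟨?_, ?_⟩
      · intro y hy
        have h3 : x = y := Sum.inl.inj (hu.symm.trans hy)
        subst h3
        exact hrefl x
      · intro i a b hy
        rw [hu] at hy
        simp at hy
    | succ n ih =>
      intro v hv
      rcases near_succ'.1 hv with h1 | ⟨h1, z, h2, h3⟩
      · exact ih v h1
      · exact Main_step Mo hM Z P htrans hadj hexc (near_right h3) h1 (ih z h3) h2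
  exact (key n v h).1 y hv

/-- The main theorem of part R: `walk_decomp` with `P x y := x = y ∨ ∃ m, Near (goodV) m x y`, `Phi_real`,
`Phi_cl` (second clause), `Phi_adj`, `excursion`. -/
theorem real_walks : RealWalksStmt := by
  intro M hM hq _ Q hQ _ l1 Mo hC
  refine ⟨Phi Mo Q hM, fun x hx => Phi_real Mo Q hM hx, ?_, fun x y h => Phi_adj Mo Q hC hM hQ h, ?_⟩
  · intro i x hx
    exact ⟨_, _, Phi_cl Mo Q hC hM hQ i ((mem_cl Mo hM i x).2 (Or.inl hx))⟩
  · intro Z x y n hx hy h
    have hgood : ∀ (z : M.V) (w : (glue M Mo).V), w.1 = Sum.inl z → w ∈ Z →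
        z ∈ goodV Mo Q hM l1 Z := by
      intro z w hw hwZ
      have hz : z ∈ Mo.Real := by
        have h1 := w.2
        rw [hw] at h1
        exact h1
      have h2 : Phi Mo Q hM z = w := Subtype.ext ((Phi_real Mo Q hM hz).trans hw.symm)
      refine ⟨⟨w, hwZ, ?_⟩, Or.inl hz⟩
      rw [h2]
      exact near_mono (near_refl (Set.mem_univ w)) (by omega) (Set.Subset.refl _)
    have h1 := walk_decomp Mo hM Z
      (fun x y => x = y ∨ ∃ m, Near M.graph (goodV Mo Q hM l1 Z) m x y) (fun x => Or.inl rfl)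
      (by
        rintro x y z (rfl | ⟨m, hm⟩) (rfl | ⟨k, hk⟩)
        · exact Or.inl rfl
        · exact Or.inr ⟨k, hk⟩
        · exact Or.inr ⟨m, hm⟩
        · exact Or.inr ⟨m + k, near_trans hm hk⟩)
      (by
        intro x y u v hu hv huZ hvZ hxy
        exact Or.inr ⟨1, near_adj (hgood x u hu huZ) (hgood y v hv hvZ) hxy⟩)
      (by
        intro i s t hs ht p j h0 hj hp hi hZ
        exact Or.inr (excursion Mo Q hC hM hq hQ Z i hs ht p j h0 hj hp hi hZ))
      (Phi_real Mo Q hM hx) (Phi_real Mo Q hM hy) h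
    rcases h1 with h1 | h1
    · subst h1
      exact ⟨0, near_refl (hgood x _ (Phi_real Mo Q hM hx) (near_left h))⟩
    · exact h1

end Pool.Agent.H.MP_c8cc4c_co
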